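import Mathlib

/-!
# The scalar inequality behind the pinching constant `1 / 5`
-/

namespace H80Hopf

/-- lower estimate of the integrand when the quadratic invariant is minimal -/
noncomputable def Glo (l μ p s : ℝ) : ℝ :=
  90 * (1 + p) ^ 3 - 240 * l * p ^ 3 - 240 * (1 - l) * p * (4 - p) ^ 2 - 48 * (1 - l) * s ^ 2
    - 60 * s * (μ * p ^ 2 + (1 - μ) * (4 - p) ^ 2) + 48 * (1 - μ) * s ^ 2
    - 9 * s ^ 2 * (11 - 8 * l - 5 / 3 * p - 2 / 3 * s)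

/-- lower estimate of the integrand when the quadratic invariant is maximal -/
noncomputable def Ghi (l μ p s : ℝ) : ℝ :=
  90 * (1 + p) ^ 3 - 240 * l * p ^ 3 - 240 * (1 - l) * p * (4 - p) ^ 2 - 48 * (1 - l) * s ^ 2
    - 60 * s * (μ * p ^ 2 + (1 - μ) * (4 - p) ^ 2) + 48 * (1 - μ) * s ^ 2
    + (40 * p * (4 - p) - 14 * s ^ 2) * (11 - 8 * l - 5 / 3 * p - 2 / 3 * s)

lemma piece1_lo (p s : ℝ) (h0 : 0 ≤ p) (h1 : p ≤ (83 / 50)) (hs : 0 ≤ s) :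
    0 < Glo 1 1 p s := by
  have hA : 0 ≤ (s - (3 + (1 / 10) * p)) ^ 2 * (s + ((3 / 2) + (27 / 10) * p)) :=
    mul_nonneg (sq_nonneg _) (by linarith)
  have a0 : 0 ≤ p - 0 := by linarith
  have a1 : 0 ≤ (83 / 50) - p := by linarith
  have hB : 0 ≤ 0 + (477 / 5) * p + (-2841 / 50) * p ^ 2 := by
    linarith [mul_nonneg a0 a0, mul_nonneg a0 a1, mul_nonneg a1 a1]
  have hC : 0 < 9 + (594 / 5) * p + (26019 / 100) * p ^ 2 + (-75081 / 500) * p ^ 3 := by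
    linarith [mul_nonneg a0 (mul_nonneg a0 a0), mul_nonneg a0 (mul_nonneg a0 a1),
      mul_nonneg a0 (mul_nonneg a1 a1), mul_nonneg a1 (mul_nonneg a1 a1)]
  have hD := mul_nonneg hB hs
  unfold Glo
  linarith [mul_nonneg (show (0:ℝ) ≤ 6 by norm_num) hA]

lemma piece1_hi (p s : ℝ) (h0 : (1 / 10) ≤ p) (h1 : p ≤ (83 / 50)) (hs : 0 ≤ s) :
    0 < Ghi 1 1 p s := by
  have hA : 0 ≤ (s - (3 + (3 / 20) * p)) ^ 2 * (s + ((3 / 2) + (14 / 5) * p)) :=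
    mul_nonneg (sq_nonneg _) (by linarith)
  have a0 : 0 ≤ p - (1 / 10) := by linarith
  have a1 : 0 ≤ (83 / 50) - p := by linarith
  have hB : 0 ≤ 0 + (689 / 15) * p + (-7711 / 300) * p ^ 2 := by
    linarith [mul_nonneg a0 a0, mul_nonneg a0 a1, mul_nonneg a1 a1]
  have hC : 0 < (-36) + (2511 / 5) * p + (-84301 / 600) * p ^ 2 + (-62941 / 750) * p ^ 3 := by
    linarith [mul_nonneg a0 (mul_nonneg a0 a0), mul_nonneg a0 (mul_nonneg a0 a1),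
      mul_nonneg a0 (mul_nonneg a1 a1), mul_nonneg a1 (mul_nonneg a1 a1)]
  have hD := mul_nonneg hB hs
  unfold Ghi
  linarith [mul_nonneg (show (0:ℝ) ≤ (28 / 3) by norm_num) hA]

lemma piece2_lo (p s : ℝ) (h0 : (83 / 50) ≤ p) (h1 : p ≤ (173 / 100)) (hs : 0 ≤ s) :
    0 < Glo 1 (1 / 2) p s := by
  have hA : 0 ≤ (s - ((37 / 10) + (-3 / 5) * p)) ^ 2 * (s + ((69 / 10) + (13 / 10) * p)) :=
    mul_nonneg (sq_nonneg _) (by linarith)
  have a0 : 0 ≤ p - (83 / 50) := by linarith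
  have a1 : 0 ≤ (173 / 100) - p := by linarith
  have hB : 0 ≤ (-12789 / 50) + (6867 / 25) * p + (-1788 / 25) * p ^ 2 := by
    linarith [mul_nonneg a0 a0, mul_nonneg a0 a1, mul_nonneg a1 a1]
  have hC : 0 < (-238383 / 500) + (173517 / 500) * p + (36216 / 125) * p ^ 2 + (-19101 / 125) * p ^ 3 := by
    linarith [mul_nonneg a0 (mul_nonneg a0 a0), mul_nonneg a0 (mul_nonneg a0 a1),
      mul_nonneg a0 (mul_nonneg a1 a1), mul_nonneg a1 (mul_nonneg a1 a1)]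
  have hD := mul_nonneg hB hs
  unfold Glo
  linarith [mul_nonneg (show (0:ℝ) ≤ 6 by norm_num) hA]

lemma piece2_hi (p s : ℝ) (h0 : (83 / 50) ≤ p) (h1 : p ≤ (173 / 100)) (hs : 0 ≤ s) :
    0 < Ghi 1 (1 / 2) p s := by
  have hA : 0 ≤ (s - ((106 / 25) + (-41 / 50) * p)) ^ 2 * (s + ((2293 / 350) + (43 / 50) * p)) :=
    mul_nonneg (sq_nonneg _) (by linarith)
  have a0 : 0 ≤ p - (83 / 50) := by linarith
  have a1 : 0 ≤ (173 / 100) - p := by linarith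
  have hB : 0 ≤ (-80792 / 625) + (103762 / 625) * p + (-32983 / 625) * p ^ 2 := by
    linarith [mul_nonneg a0 a0, mul_nonneg a0 a1, mul_nonneg a1 a1]
  have hC : 0 < (-47309546 / 46875) + (48322934 / 46875) * p + (-3186483 / 31250) * p ^ 2 + (-2772827 / 31250) * p ^ 3 := by
    linarith [mul_nonneg a0 (mul_nonneg a0 a0), mul_nonneg a0 (mul_nonneg a0 a1),
      mul_nonneg a0 (mul_nonneg a1 a1), mul_nonneg a1 (mul_nonneg a1 a1)]
  have hD := mul_nonneg hB hs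
  unfold Ghi
  linarith [mul_nonneg (show (0:ℝ) ≤ (28 / 3) by norm_num) hA]

lemma piece3_lo (p s : ℝ) (h0 : (173 / 100) ≤ p) (h1 : p ≤ (9 / 5)) (hs : 0 ≤ s) :
    0 < Glo 1 (1 / 5) p s := by
  have hA : 0 ≤ (s - (5 + (-3 / 2) * p)) ^ 2 * (s + ((119 / 10) + (-1 / 2) * p)) :=
    mul_nonneg (sq_nonneg _) (by linarith)
  have a0 : 0 ≤ p - (173 / 100) := by linarith
  have a1 : 0 ≤ (9 / 5) - p := by linarith
  have hB : 0 ≤ (-204) + (1149 / 5) * p + (-129 / 2) * p ^ 2 := by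
    linarith [mul_nonneg a0 a0, mul_nonneg a0 a1, mul_nonneg a1 a1]
  have hC : 0 < (-1695) + 1416 * p + (1287 / 20) * p ^ 2 + (-573 / 4) * p ^ 3 := by
    linarith [mul_nonneg a0 (mul_nonneg a0 a0), mul_nonneg a0 (mul_nonneg a0 a1),
      mul_nonneg a0 (mul_nonneg a1 a1), mul_nonneg a1 (mul_nonneg a1 a1)]
  have hD := mul_nonneg hB hs
  unfold Glo
  linarith [mul_nonneg (show (0:ℝ) ≤ 6 by norm_num) hA]

lemma piece3_hi (p s : ℝ) (h0 : (173 / 100) ≤ p) (h1 : p ≤ (9 / 5)) (hs : 0 ≤ s) :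
    0 < Ghi 1 (1 / 5) p s := by
  have hA : 0 ≤ (s - ((24 / 5) + (-5 / 4) * p)) ^ 2 * (s + ((129 / 14))) :=
    mul_nonneg (sq_nonneg _) (by linarith)
  have a0 : 0 ≤ p - (173 / 100) := by linarith
  have a1 : 0 ≤ (9 / 5) - p := by linarith
  have hB : 0 ≤ (-3936 / 25) + (523 / 3) * p + (-575 / 12) * p ^ 2 := by
    linarith [mul_nonneg a0 a0, mul_nonneg a0 a1, mul_nonneg a1 a1]
  have hC : 0 < (-47286 / 25) + 1782 * p + (-6025 / 24) * p ^ 2 + (-250 / 3) * p ^ 3 := by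
    linarith [mul_nonneg a0 (mul_nonneg a0 a0), mul_nonneg a0 (mul_nonneg a0 a1),
      mul_nonneg a0 (mul_nonneg a1 a1), mul_nonneg a1 (mul_nonneg a1 a1)]
  have hD := mul_nonneg hB hs
  unfold Ghi
  linarith [mul_nonneg (show (0:ℝ) ≤ (28 / 3) by norm_num) hA]

lemma piece4_lo (p s : ℝ) (h0 : (9 / 5) ≤ p) (h1 : p ≤ 2) (hs : 0 ≤ s) :
    0 < Glo 1 0 p s := by
  have hA : 0 ≤ (s - ((27 / 5) + (-9 / 5) * p)) ^ 2 * (s + ((143 / 10) + (-11 / 10) * p)) :=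
    mul_nonneg (sq_nonneg _) (by linarith)
  have a0 : 0 ≤ p - (9 / 5) := by linarith
  have a1 : 0 ≤ 2 - p := by linarith
  have hB : 0 ≤ (-5208 / 25) + (5412 / 25) * p + (-1392 / 25) * p ^ 2 := by
    linarith [mul_nonneg a0 a0, mul_nonneg a0 a1, mul_nonneg a1 a1]
  have hC : 0 < (-301491 / 125) + (266301 / 125) * p + (-17037 / 125) * p ^ 2 + (-16077 / 125) * p ^ 3 := by
    linarith [mul_nonneg a0 (mul_nonneg a0 a0), mul_nonneg a0 (mul_nonneg a0 a1),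
      mul_nonneg a0 (mul_nonneg a1 a1), mul_nonneg a1 (mul_nonneg a1 a1)]
  have hD := mul_nonneg hB hs
  unfold Glo
  linarith [mul_nonneg (show (0:ℝ) ≤ 6 by norm_num) hA]

lemma piece4_hi (p s : ℝ) (h0 : (9 / 5) ≤ p) (h1 : p ≤ 2) (hs : 0 ≤ s) :
    0 < Ghi 1 0 p s := by
  have hA : 0 ≤ (s - ((97 / 20) + (-27 / 20) * p)) ^ 2 * (s + ((362 / 35) + (-1 / 5) * p)) :=
    mul_nonneg (sq_nonneg _) (by linarith)
  have a0 : 0 ≤ p - (9 / 5) := by linarith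
  have a1 : 0 ≤ 2 - p := by linarith
  have hB : 0 ≤ (-24317 / 100) + (32521 / 150) * p + (-13591 / 300) * p ^ 2 := by
    linarith [mul_nonneg a0 a0, mul_nonneg a0 a1, mul_nonneg a1 a1]
  have hC : 0 < (-1635529 / 750) + (3087019 / 1500) * p + (-118891 / 375) * p ^ 2 + (-119897 / 1500) * p ^ 3 := by
    linarith [mul_nonneg a0 (mul_nonneg a0 a0), mul_nonneg a0 (mul_nonneg a0 a1),
      mul_nonneg a0 (mul_nonneg a1 a1), mul_nonneg a1 (mul_nonneg a1 a1)]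
  have hD := mul_nonneg hB hs
  unfold Ghi
  linarith [mul_nonneg (show (0:ℝ) ≤ (28 / 3) by norm_num) hA]

lemma piece5_lo (p s : ℝ) (h0 : 2 ≤ p) (h1 : p ≤ (5 / 2)) (hs : 0 ≤ s) :
    0 < Glo (3 / 4) 0 p s := by
  have hA : 0 ≤ (s - ((71 / 10) + (-11 / 5) * p)) ^ 2 * (s + ((127 / 10) + (-19 / 10) * p)) :=
    mul_nonneg (sq_nonneg _) (by linarith)
  have a0 : 0 ≤ p - 2 := by linarith
  have a1 : 0 ≤ (5 / 2) - p := by linarith
  have hB : 0 ≤ (-9021 / 50) + (4257 / 25) * p + (-972 / 25) * p ^ 2 := by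
    linarith [mul_nonneg a0 a0, mul_nonneg a0 a1, mul_nonneg a1 a1]
  have hC : 0 < (-1875621 / 500) + (1132581 / 500) * p + (3132 / 125) * p ^ 2 + (-11853 / 125) * p ^ 3 := by
    linarith [mul_nonneg a0 (mul_nonneg a0 a0), mul_nonneg a0 (mul_nonneg a0 a1),
      mul_nonneg a0 (mul_nonneg a1 a1), mul_nonneg a1 (mul_nonneg a1 a1)]
  have hD := mul_nonneg hB hs
  unfold Glo
  linarith [mul_nonneg (show (0:ℝ) ≤ 6 by norm_num) hA]

lemma piece5_hi (p s : ℝ) (h0 : 2 ≤ p) (h1 : p ≤ (5 / 2)) (hs : 0 ≤ s) :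
    0 < Ghi (3 / 4) 0 p s := by
  have hA : 0 ≤ (s - ((67 / 10) + (-9 / 5) * p)) ^ 2 * (s + ((683 / 70) + (-11 / 10) * p)) :=
    mul_nonneg (sq_nonneg _) (by linarith)
  have a0 : 0 ≤ p - 2 := by linarith
  have a1 : 0 ≤ (5 / 2) - p := by linarith
  have hB : 0 ≤ (-3967 / 25) + (3326 / 25) * p + (-1996 / 75) * p ^ 2 := by
    linarith [mul_nonneg a0 a0, mul_nonneg a0 a1, mul_nonneg a1 a1]
  have hC : 0 < (-2998487 / 750) + (2075549 / 750) * p + (-97258 / 375) * p ^ 2 + (-18776 / 375) * p ^ 3 := by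
    linarith [mul_nonneg a0 (mul_nonneg a0 a0), mul_nonneg a0 (mul_nonneg a0 a1),
      mul_nonneg a0 (mul_nonneg a1 a1), mul_nonneg a1 (mul_nonneg a1 a1)]
  have hD := mul_nonneg hB hs
  unfold Ghi
  linarith [mul_nonneg (show (0:ℝ) ≤ (28 / 3) by norm_num) hA]

lemma piece6_lo (p s : ℝ) (h0 : (5 / 2) ≤ p) (h1 : p ≤ 4) (hs : 0 ≤ s) :
    0 < Glo (3 / 5) 0 p s := by
  have hA : 0 ≤ (s - (6 + (-3 / 2) * p)) ^ 2 * (s + ((15 / 2) + (-1 / 2) * p)) :=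
    mul_nonneg (sq_nonneg _) (by linarith)
  have a0 : 0 ≤ p - (5 / 2) := by linarith
  have a1 : 0 ≤ 4 - p := by linarith
  have hB : 0 ≤ (-636) + 417 * p + (-129 / 2) * p ^ 2 := by
    linarith [mul_nonneg a0 a0, mul_nonneg a0 a1, mul_nonneg a1 a1]
  have hC : 0 < (-1530) + (-348) * p + (3531 / 4) * p ^ 2 + (-573 / 4) * p ^ 3 := by
    linarith [mul_nonneg a0 (mul_nonneg a0 a0), mul_nonneg a0 (mul_nonneg a0 a1),
      mul_nonneg a0 (mul_nonneg a1 a1), mul_nonneg a1 (mul_nonneg a1 a1)]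
  have hD := mul_nonneg hB hs
  unfold Glo
  linarith [mul_nonneg (show (0:ℝ) ≤ 6 by norm_num) hA]

lemma piece6_hi (p s : ℝ) (h0 : (5 / 2) ≤ p) (h1 : p ≤ 4) (hs : 0 ≤ s) :
    0 < Ghi (3 / 5) 0 p s := by
  have hA : 0 ≤ (s - ((37 / 5) + (-9 / 5) * p)) ^ 2 * (s + ((601 / 70) + (-11 / 10) * p)) :=
    mul_nonneg (sq_nonneg _) (by linarith)
  have a0 : 0 ≤ p - (5 / 2) := by linarith
  have a1 : 0 ≤ 4 - p := by linarith
  have hB : 0 ≤ (-7128 / 25) + (13616 / 75) * p + (-1996 / 75) * p ^ 2 := by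
    linarith [mul_nonneg a0 a0, mul_nonneg a0 a1, mul_nonneg a1 a1]
  have hC : 0 < (-1611788 / 375) + (908608 / 375) * p + (-3676 / 375) * p ^ 2 + (-18776 / 375) * p ^ 3 := by
    linarith [mul_nonneg a0 (mul_nonneg a0 a0), mul_nonneg a0 (mul_nonneg a0 a1),
      mul_nonneg a0 (mul_nonneg a1 a1), mul_nonneg a1 (mul_nonneg a1 a1)]
  have hD := mul_nonneg hB hs
  unfold Ghi
  linarith [mul_nonneg (show (0:ℝ) ≤ (28 / 3) by norm_num) hA]

lemma piece0_hi (p s : ℝ) (h0 : 0 ≤ p) (h1 : p ≤ 1 / 10) (hs : 0 ≤ s)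
    (hd : s ^ 2 ≤ 8 * p * (4 - p)) : 0 < Ghi 1 1 p s := by
  have h2 : s ^ 2 ≤ 32 * p := by nlinarith
  have h3 : s ≤ 9 / 5 := by nlinarith
  have h4 : 0 ≤ s ^ 3 := by positivity
  have h5 : 0 ≤ s ^ 2 * p := by positivity
  have h6 : p * s ≤ 9 / 50 := by nlinarith
  have h7 : p ^ 2 * s ≤ 9 / 500 := by nlinarith
  have h8 : p ^ 2 ≤ 1 / 100 := by nlinarith
  have h9 : p ^ 3 ≤ 1 / 1000 := by nlinarith
  unfold Ghi
  nlinarith

/-- combination of the two cubic inequalities with the two bounds on the mixed invariant -/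
lemma comb (l μ p s e f z : ℝ) (hl : 0 ≤ l) (hl1 : l ≤ 1) (hμ : 0 ≤ μ) (hμ1 : μ ≤ 1)
    (h1 : 0 ≤ e + 9 * s ^ 2) (h2 : e + 14 * s ^ 2 ≤ 40 * p * (4 - p))
    (h3 : z ≤ s * (90 * p ^ 2 + e))
    (h4 : z + 72 * s ^ 2 ≤ s * (90 * (4 - p) ^ 2 + e))
    (h5 : 0 ≤ f + 240 * p ^ 3 + 14 / 3 * p * e + 2 / 3 * z)
    (h6 : 0 ≤ f + 240 * p * (4 - p) ^ 2 - (2 * (4 - p) - 8 / 3 * p) * e
      + 2 / 3 * (z + 72 * s ^ 2))
    (hlo : 0 < Glo l μ p s) (hhi : 0 < Ghi l μ p s) :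
    0 < 90 * (1 + p) ^ 3 + 3 * (1 + p) * e + f := by
  have h7 : z ≤ μ * (s * (90 * p ^ 2 + e)) + (1 - μ) * (s * (90 * (4 - p) ^ 2 + e) - 72 * s ^ 2) := by
    have a := mul_le_mul_of_nonneg_left h3 hμ
    have b := mul_le_mul_of_nonneg_left h4 (sub_nonneg.mpr hμ1)
    linarith
  have h8 := mul_nonneg hl h5
  have h9 := mul_nonneg (sub_nonneg.mpr hl1) h6
  have h10 : 90 * (1 + p) ^ 3 - 240 * l * p ^ 3 - 240 * (1 - l) * p * (4 - p) ^ 2
      - 48 * (1 - l) * s ^ 2 - 60 * s * (μ * p ^ 2 + (1 - μ) * (4 - p) ^ 2)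
      + 48 * (1 - μ) * s ^ 2 + e * (11 - 8 * l - 5 / 3 * p - 2 / 3 * s) ≤
      90 * (1 + p) ^ 3 + 3 * (1 + p) * e + f := by
    linarith
  rcases le_total 0 (11 - 8 * l - 5 / 3 * p - 2 / 3 * s) with hk | hk
  · have := mul_nonneg h1 hk
    unfold Glo at hlo
    linarith
  · have := mul_nonneg_of_nonpos_of_nonpos (sub_nonpos.mpr h2) hk
    unfold Ghi at hhi
    linarith

/-- The scalar inequality for the pinching constant `1 / 5`. -/
lemma scalar_pos (p s e f z : ℝ) (hp : 0 ≤ p) (hp4 : p ≤ 4) (hs : 0 ≤ s)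
    (h1 : 0 ≤ e + 9 * s ^ 2) (h2 : e + 14 * s ^ 2 ≤ 40 * p * (4 - p))
    (h3 : z ≤ s * (90 * p ^ 2 + e))
    (h4 : z + 72 * s ^ 2 ≤ s * (90 * (4 - p) ^ 2 + e))
    (h5 : 0 ≤ f + 240 * p ^ 3 + 14 / 3 * p * e + 2 / 3 * z)
    (h6 : 0 ≤ f + 240 * p * (4 - p) ^ 2 - (2 * (4 - p) - 8 / 3 * p) * e
      + 2 / 3 * (z + 72 * s ^ 2)) :
    0 < 90 * (1 + p) ^ 3 + 3 * (1 + p) * e + f := by
  have hd : s ^ 2 ≤ 8 * p * (4 - p) := by linarith
  rcases le_total p (1 / 10) with c1 | c1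
  · exact comb 1 1 p s e f z (by norm_num) (by norm_num) (by norm_num) (by norm_num) h1 h2 h3 h4
      h5 h6 (piece1_lo p s hp (by linarith) hs) (piece0_hi p s hp c1 hs hd)
  rcases le_total p (83 / 50) with c2 | c2
  · exact comb 1 1 p s e f z (by norm_num) (by norm_num) (by norm_num) (by norm_num) h1 h2 h3 h4
      h5 h6 (piece1_lo p s hp c2 hs) (piece1_hi p s c1 c2 hs)
  rcases le_total p (173 / 100) with c3 | c3
  · exact comb 1 (1 / 2) p s e f z (by norm_num) (by norm_num) (by norm_num) (by norm_num) h1 h2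
      h3 h4 h5 h6 (piece2_lo p s c2 c3 hs) (piece2_hi p s c2 c3 hs)
  rcases le_total p (9 / 5) with c4 | c4
  · exact comb 1 (1 / 5) p s e f z (by norm_num) (by norm_num) (by norm_num) (by norm_num) h1 h2
      h3 h4 h5 h6 (piece3_lo p s c3 c4 hs) (piece3_hi p s c3 c4 hs)
  rcases le_total p 2 with c5 | c5
  · exact comb 1 0 p s e f z (by norm_num) (by norm_num) (by norm_num) (by norm_num) h1 h2
      h3 h4 h5 h6 (piece4_lo p s c4 c5 hs) (piece4_hi p s c4 c5 hs)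
  rcases le_total p (5 / 2) with c6 | c6
  · exact comb (3 / 4) 0 p s e f z (by norm_num) (by norm_num) (by norm_num) (by norm_num) h1 h2
      h3 h4 h5 h6 (piece5_lo p s c5 c6 hs) (piece5_hi p s c5 c6 hs)
  · exact comb (3 / 5) 0 p s e f z (by norm_num) (by norm_num) (by norm_num) (by norm_num) h1 h2
      h3 h4 h5 h6 (piece6_lo p s c6 hp4 hs) (piece6_hi p s c6 hp4 hs)

end H80Hopf
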