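import Pool.Agent.Lib.H80Hopf.Reduce
import Pool.Agent.Lib.H80Hopf.Scalar

/-!
# The pinching theorem in dimension six
-/

open Finset Equiv

namespace H80Hopf

/-- Pinching `1 ≤ K ≤ 5` implies positivity of the Gauss–Bonnet integrand. -/
lemma gb_pos (R : T4) (hR : AC R) (h1 : ∀ x y : Fin 6 → ℝ, sec I4 x y ≤ sec R x y)
    (h5 : ∀ x y : Fin 6 → ℝ, sec R x y ≤ 5 * sec I4 x y) : 0 < gb R R R := by
  obtain ⟨p, q, s, e, f, z, hp, hq, hs, hpq, -, -, e1, e2, e3, e4, e5, e6, hE⟩ :=
    reduce R hR 1 5 (fun x y => by simpa using h1 x y) h5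
  have hq' : q = 4 - p := by linarith
  subst hq'
  rw [hE]
  have h4 : p + (4 - p) = 4 := by ring
  rw [h4] at e4 e6
  have key := scalar_pos p s e f z hp (by linarith) hs e1 e2 e3 (by linarith) e5 (by linarith)
  linarith

/-- the sectional form of an algebraic curvature tensor is controlled by orthonormal pairs -/
lemma sec_bound_of_orthonormal (R : T4) (hR : Sym R) (a b : ℝ)
    (h : ∀ x y : Fin 6 → ℝ, ∑ i, x i * x i = 1 → ∑ i, y i * y i = 1 → ∑ i, x i * y i = 0 →
      a ≤ sec R x y ∧ sec R x y ≤ b) (x y : Fin 6 → ℝ) :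
    a * sec I4 x y ≤ sec R x y ∧ sec R x y ≤ b * sec I4 x y := by
  obtain ⟨O, hO, α, β, γ, hx, hy⟩ := exists_frame x y
  have h00 : ∑ i, O 0 i * O 0 i = 1 := by simpa using hO 0 0
  have h11 : ∑ i, O 1 i * O 1 i = 1 := by simpa using hO 1 1
  have h01 : ∑ i, O 0 i * O 1 i = 0 := by simpa using hO 0 1
  have hI : sec I4 (O 0) (O 1) = 1 := by
    rw [sec_I4]
    simp only [pow_two]
    rw [h00, h11, h01]
    norm_num
  have h2 := h (O 0) (O 1) h00 h11 h01
  rw [hx, hy, sec_tri R hR.skew hR.pair, sec_tri I4 sym_I4.skew sym_I4.pair, hI]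
  have hc : 0 ≤ α ^ 2 * γ ^ 2 := by positivity
  constructor <;> nlinarith [mul_le_mul_of_nonneg_left h2.1 hc, mul_le_mul_of_nonneg_left h2.2 hc]

/-- **Pinching theorem.** If all sectional curvatures lie in `[-5k, -k]`, `k > 0`, then the
Gauss–Bonnet–Chern integrand is negative. -/
theorem gaussBonnet_neg_of_pinched (R : T4) (hR : HopfSix.IsAlgCurv R) (k : ℝ) (hk : 0 < k)
    (h : ∀ x y : Fin 6 → ℝ, ∑ i, x i * x i = 1 → ∑ i, y i * y i = 1 → ∑ i, x i * y i = 0 →
      -5 * k ≤ sec R x y ∧ sec R x y ≤ -k) : HopfSix.gaussBonnet R < 0 := by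
  have hS : Sym R := ⟨hR.skew, hR.pair⟩
  have hb := sec_bound_of_orthonormal R hS (-5 * k) (-k) h
  have hR' : HopfSix.IsAlgCurv ((-1 / k) • R) := by
    refine ⟨?_, ?_, ?_⟩
    · intro i j k' l
      simp only [Pi.smul_apply, smul_eq_mul]
      rw [hR.skew]
      ring
    · intro i j k' l
      simp only [Pi.smul_apply, smul_eq_mul]
      rw [hR.pair]
    · intro i j k' l
      simp only [Pi.smul_apply, smul_eq_mul]
      have := hR.bianchi i j k' l
      linear_combination (-1 / k) * this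
  have hpos := gb_pos ((-1 / k) • R) hR' (by
    intro x y
    rw [sec_smul]
    have h1 := (hb x y).2
    rw [div_mul_eq_mul_div, le_div_iff₀ hk]
    linarith) (by
    intro x y
    rw [sec_smul]
    have h1 := (hb x y).1
    rw [div_mul_eq_mul_div, div_le_iff₀ hk]
    linarith)
  rw [gb_smul1, gb_smul2, gb_smul3] at hpos
  rw [gaussBonnet_eq]
  have hk3 : (-1 / k) * ((-1 / k) * ((-1 / k) * gb R R R)) = -(gb R R R) / k ^ 3 := by
    field_simp
  rw [hk3] at hpos
  have hk3' : 0 < k ^ 3 := by positivity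
  have := (div_pos_iff_of_pos_right hk3').mp hpos
  linarith

end H80Hopf
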