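import Pool.Agent.Lib.H80Hopf.Tri

/-!
# Contraction of the polarized Gauss–Bonnet form with the identity tensor
-/

open Finset Equiv

namespace H80Hopf

lemma sum_perm_step {n : ℕ} (F : (Fin (n+1) → Fin (n+1)) → ℝ) :
    ∑ σ : Perm (Fin (n+1)), sn σ * F σ = ∑ p : Fin (n+1),
      (if p = 0 then 1 else -1) * ∑ τ : Perm (Fin n), sn τ *
        F (Fin.cons p (fun x => swap 0 p (τ x).succ)) := by
  rw [Finset.univ_perm_fin_succ, Finset.sum_map, Fintype.sum_prod_type]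
  refine Finset.sum_congr rfl fun p _ => ?_
  rw [Finset.mul_sum]
  refine Finset.sum_congr rfl fun τ _ => ?_
  have h : (⇑(Perm.decomposeFin.symm (p, τ)) : Fin (n+1) → Fin (n+1)) =
      Fin.cons p (fun x => swap 0 p (τ x).succ) := by
    funext x
    refine Fin.cases ?_ (fun y => ?_) x
    · simp [Perm.decomposeFin_symm_apply_zero]
    · simp [Perm.decomposeFin_symm_apply_succ]
  have h2 := Perm.decomposeFin.symm_sign p τ
  simp only [Equiv.coe_toEmbedding, h, h2, sn]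
  split_ifs <;> simp

lemma sum_perm_step' {n : ℕ} (F : (Fin (n+1) → Fin (n+1)) → ℝ) :
    ∑ σ : Perm (Fin (n+1)), F σ = ∑ p : Fin (n+1),
      ∑ τ : Perm (Fin n), F (Fin.cons p (fun x => swap 0 p (τ x).succ)) := by
  rw [Finset.univ_perm_fin_succ, Finset.sum_map, Fintype.sum_prod_type]
  refine Finset.sum_congr rfl fun p _ => ?_
  refine Finset.sum_congr rfl fun τ _ => ?_
  have h : (⇑(Perm.decomposeFin.symm (p, τ)) : Fin (n+1) → Fin (n+1)) =
      Fin.cons p (fun x => swap 0 p (τ x).succ) := by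
    funext x
    refine Fin.cases ?_ (fun y => ?_) x
    · simp [Perm.decomposeFin_symm_apply_zero]
    · simp [Perm.decomposeFin_symm_apply_succ]
  simp only [Equiv.coe_toEmbedding, h]

lemma sum_fix {n : ℕ} (F : (Fin (n+1) → Fin (n+1)) → ℝ) :
    ∑ σ : Perm (Fin (n+1)), (if σ 0 = 0 then F σ else 0) =
      ∑ τ : Perm (Fin n), F (Fin.cons 0 (fun x => (τ x).succ)) := by
  rw [sum_perm_step' (fun g => if g 0 = 0 then F g else 0), Finset.sum_eq_single (0 : Fin (n+1))]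
  · simp
  · intro p _ hp
    simp [hp]
  · simp

lemma sum_fix_sn {n : ℕ} (F : (Fin (n+1) → Fin (n+1)) → ℝ) :
    ∑ σ : Perm (Fin (n+1)), sn σ * (if σ 0 = 0 then F σ else 0) =
      ∑ τ : Perm (Fin n), sn τ * F (Fin.cons 0 (fun x => (τ x).succ)) := by
  rw [sum_perm_step (fun g => if g 0 = 0 then F g else 0), Finset.sum_eq_single (0 : Fin (n+1))]
  · simp
  · intro p _ hp
    simp [hp]
  · simp

lemma sum_perm4 (F : Fin 4 → Fin 4 → Fin 4 → Fin 4 → ℝ) :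
    ∑ σ : Perm (Fin 4), sn σ * F (σ 0) (σ 1) (σ 2) (σ 3) =
      F 0 1 2 3 - F 0 1 3 2 - F 0 2 1 3 + F 0 2 3 1 + F 0 3 1 2 - F 0 3 2 1
      - F 1 0 2 3 + F 1 0 3 2 + F 1 2 0 3 - F 1 2 3 0 - F 1 3 0 2 + F 1 3 2 0
      + F 2 0 1 3 - F 2 0 3 1 - F 2 1 0 3 + F 2 1 3 0 + F 2 3 0 1 - F 2 3 1 0
      - F 3 0 1 2 + F 3 0 2 1 + F 3 1 0 2 - F 3 1 2 0 - F 3 2 0 1 + F 3 2 1 0 := by
  rw [sum_perm_step (fun g => F (g 0) (g 1) (g 2) (g 3))]
  have h3 : ∀ p : Fin 4, ∑ τ : Perm (Fin 3), sn τ *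
      F p (swap 0 p (τ 0).succ) (swap 0 p (τ 1).succ) (swap 0 p (τ 2).succ) =
      (F p (swap 0 p 1) (swap 0 p 2) (swap 0 p 3) - F p (swap 0 p 1) (swap 0 p 3) (swap 0 p 2)
      - F p (swap 0 p 2) (swap 0 p 1) (swap 0 p 3) + F p (swap 0 p 2) (swap 0 p 3) (swap 0 p 1)
      + F p (swap 0 p 3) (swap 0 p 1) (swap 0 p 2) - F p (swap 0 p 3) (swap 0 p 2) (swap 0 p 1)) := by
    intro p
    rw [sum_perm_step (fun g => F p (swap 0 p (g 0).succ) (swap 0 p (g 1).succ)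
      (swap 0 p (g 2).succ))]
    have h2 : ∀ q : Fin 3, ∑ τ : Perm (Fin 2), sn τ *
        F p (swap 0 p q.succ) (swap 0 p (swap 0 q (τ 0).succ).succ)
          (swap 0 p (swap 0 q (τ 1).succ).succ) =
        F p (swap 0 p q.succ) (swap 0 p (swap 0 q 1).succ)
          (swap 0 p (swap 0 q 2).succ) - F p (swap 0 p q.succ) (swap 0 p (swap 0 q 2).succ)
          (swap 0 p (swap 0 q 1).succ) := by
      intro q
      rw [sum_perm_step (fun g => F p (swap 0 p q.succ) (swap 0 p (swap 0 q (g 0).succ).succ)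
          (swap 0 p (swap 0 q (g 1).succ).succ))]
      have h1 : ∀ r : Fin 2, ∑ τ : Perm (Fin 1), sn τ *
         F p (swap 0 p q.succ) (swap 0 p (swap 0 q r.succ).succ)
          (swap 0 p (swap 0 q (swap 0 r (τ 0).succ).succ).succ) =
          F p (swap 0 p q.succ) (swap 0 p (swap 0 q r.succ).succ)
          (swap 0 p (swap 0 q (swap 0 r 1).succ).succ) := by
        intro r
        rw [Fintype.sum_subsingleton _ (1 : Perm (Fin 1))]
        simp [sn]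
      exact (Finset.sum_congr rfl fun r _ => congrArg _ (h1 r)).trans (by
        simp [Fin.sum_univ_succ]
        ring)
    exact (Finset.sum_congr rfl fun r _ => congrArg _ (h2 r)).trans (by
        simp [Fin.sum_univ_succ, swap_apply_def]
        ring)
  exact (Finset.sum_congr rfl fun r _ => congrArg _ (h3 r)).trans (by
        simp [Fin.sum_univ_succ, swap_apply_def]
        ring)

lemma succ_eq_iff {n : ℕ} (a b : Fin n) : a.succ = b.succ ↔ a = b := Fin.succ_inj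

/-- number of permutations with prescribed values at `0, 1, 2, 3` -/
lemma cnt_base : ∑ σ : Perm (Fin 6),
    (if σ 0 = 0 ∧ σ 1 = 1 ∧ σ 2 = 2 ∧ σ 3 = 3 then (1:ℝ) else 0) = 2 := by
  have h1 : ∀ σ : Perm (Fin 6), (if σ 0 = 0 ∧ σ 1 = 1 ∧ σ 2 = 2 ∧ σ 3 = 3 then (1:ℝ) else 0) =
      (if σ 0 = 0 then (if σ 1 = 1 ∧ σ 2 = 2 ∧ σ 3 = 3 then 1 else 0) else 0) := by
    intro σ
    by_cases h : σ 0 = 0 <;> simp [h]
  simp_rw [h1]
  rw [sum_fix (fun g => if g 1 = 1 ∧ g 2 = 2 ∧ g 3 = 3 then (1:ℝ) else 0)]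
  have h2 : ∀ τ : Perm (Fin 5), (if (Fin.cons (0 : Fin 6) (fun x => (τ x).succ) : Fin 6 → Fin 6) 1 = 1 ∧
      (Fin.cons (0 : Fin 6) (fun x => (τ x).succ) : Fin 6 → Fin 6) 2 = 2 ∧
      (Fin.cons (0 : Fin 6) (fun x => (τ x).succ) : Fin 6 → Fin 6) 3 = 3 then (1:ℝ) else 0) =
      (if τ 0 = 0 then (if τ 1 = 1 ∧ τ 2 = 2 then 1 else 0) else 0) := by
    intro τ
    have e1 : ((Fin.cons (0 : Fin 6) (fun x => (τ x).succ) : Fin 6 → Fin 6) 1 = 1) ↔ τ 0 = 0 :=
      succ_eq_iff (τ 0) 0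
    have e2 : ((Fin.cons (0 : Fin 6) (fun x => (τ x).succ) : Fin 6 → Fin 6) 2 = 2) ↔ τ 1 = 1 :=
      succ_eq_iff (τ 1) 1
    have e3 : ((Fin.cons (0 : Fin 6) (fun x => (τ x).succ) : Fin 6 → Fin 6) 3 = 3) ↔ τ 2 = 2 :=
      succ_eq_iff (τ 2) 2
    simp only [e1, e2, e3]
    by_cases h : τ 0 = 0 <;> simp [h]
  simp_rw [h2]
  rw [sum_fix (fun g => if g 1 = 1 ∧ g 2 = 2 then (1:ℝ) else 0)]
  have h3 : ∀ τ : Perm (Fin 4), (if (Fin.cons (0 : Fin 5) (fun x => (τ x).succ) : Fin 5 → Fin 5) 1 = 1 ∧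
      (Fin.cons (0 : Fin 5) (fun x => (τ x).succ) : Fin 5 → Fin 5) 2 = 2 then (1:ℝ) else 0) =
      (if τ 0 = 0 then (if τ 1 = 1 then 1 else 0) else 0) := by
    intro τ
    have e1 : ((Fin.cons (0 : Fin 5) (fun x => (τ x).succ) : Fin 5 → Fin 5) 1 = 1) ↔ τ 0 = 0 :=
      succ_eq_iff (τ 0) 0
    have e2 : ((Fin.cons (0 : Fin 5) (fun x => (τ x).succ) : Fin 5 → Fin 5) 2 = 2) ↔ τ 1 = 1 :=
      succ_eq_iff (τ 1) 1
    simp only [e1, e2]
    by_cases h : τ 0 = 0 <;> simp [h]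
  simp_rw [h3]
  rw [sum_fix (fun g => if g 1 = 1 then (1:ℝ) else 0)]
  have h4 : ∀ τ : Perm (Fin 3),
      (if (Fin.cons (0 : Fin 4) (fun x => (τ x).succ) : Fin 4 → Fin 4) 1 = 1 then (1:ℝ) else 0) =
      (if τ 0 = 0 then 1 else 0) := by
    intro τ
    have e1 : ((Fin.cons (0 : Fin 4) (fun x => (τ x).succ) : Fin 4 → Fin 4) 1 = 1) ↔ τ 0 = 0 :=
      succ_eq_iff (τ 0) 0
    simp only [e1]
  simp_rw [h4]
  rw [sum_fix (fun _ => (1:ℝ))]
  simp [Fintype.card_perm]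

/-- number of permutations with prescribed distinct values at `0, 1, 2, 3` -/
lemma cnt_dist (i j k l : Fin 6) (hij : i ≠ j) (hik : i ≠ k) (hil : i ≠ l) (hjk : j ≠ k)
    (hjl : j ≠ l) (hkl : k ≠ l) : ∑ σ : Perm (Fin 6),
    (if σ 0 = i ∧ σ 1 = j ∧ σ 2 = k ∧ σ 3 = l then (1:ℝ) else 0) = 2 := by
  obtain ⟨g, hg⟩ : ∃ g : Perm (Fin 6), g 0 = i ∧ g 1 = j ∧ g 2 = k ∧ g 3 = l := by
    have hinj : Set.InjOn (![i, j, k, l, i, i] : Fin 6 → Fin 6) ({0, 1, 2, 3} : Set (Fin 6)) := by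
      intro a ha b hb hab
      simp only [Set.mem_insert_iff, Set.mem_singleton_iff] at ha hb
      rcases ha with rfl | rfl | rfl | rfl <;> rcases hb with rfl | rfl | rfl | rfl <;>
        first | rfl | (exfalso; simp at hab; tauto)
    obtain ⟨g, hg⟩ := Set.MapsTo.exists_equiv_extend_of_card_eq (α := Fin 6) (β := Fin 6)
      (t := Finset.univ) (by simp) (s := {0, 1, 2, 3}) (f := ![i, j, k, l, i, i])
      (by intro x _; simp) hinj
    refine ⟨g.trans (Equiv.subtypeUnivEquiv (by simp)), ?_, ?_, ?_, ?_⟩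
    · simpa using hg 0 (by simp)
    · simpa using hg 1 (by simp)
    · simpa using hg 2 (by simp)
    · simpa using hg 3 (by simp)
  rw [← cnt_base]
  symm
  refine Fintype.sum_equiv (Equiv.mulLeft g) _ _ fun σ => ?_
  rw [Equiv.coe_mulLeft]
  obtain ⟨h0, h1, h2, h3⟩ := hg
  simp only [Perm.mul_apply, ← h0, ← h1, ← h2, ← h3, EmbeddingLike.apply_eq_iff_eq]

/-- Sum over permutations of a function of the last four values which vanishes on coincidences. -/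
lemma sum_perm_four (h : Fin 6 → Fin 6 → Fin 6 → Fin 6 → ℝ)
    (h01 : ∀ i k l, h i i k l = 0) (h02 : ∀ i j l, h i j i l = 0) (h03 : ∀ i j k, h i j k i = 0)
    (h12 : ∀ i j l, h i j j l = 0) (h13 : ∀ i j k, h i j k j = 0) (h23 : ∀ i j k, h i j k k = 0) :
    ∑ σ : Perm (Fin 6), h (σ 2) (σ 3) (σ 4) (σ 5) = 2 * ∑ i, ∑ j, ∑ k, ∑ l, h i j k l := by
  have hre : ∑ σ : Perm (Fin 6), h (σ 2) (σ 3) (σ 4) (σ 5) =
      ∑ σ : Perm (Fin 6), h (σ 0) (σ 1) (σ 2) (σ 3) := by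
    refine Fintype.sum_equiv (Equiv.mulRight (finRotate 6 * finRotate 6)) _ _ fun σ => ?_
    rw [Equiv.coe_mulRight]
    have e0 : (finRotate 6 * finRotate 6 : Perm (Fin 6)) 0 = 2 := by decide
    have e1 : (finRotate 6 * finRotate 6 : Perm (Fin 6)) 1 = 3 := by decide
    have e2 : (finRotate 6 * finRotate 6 : Perm (Fin 6)) 2 = 4 := by decide
    have e3 : (finRotate 6 * finRotate 6 : Perm (Fin 6)) 3 = 5 := by decide
    simp only [Perm.mul_apply σ, e0, e1, e2, e3]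
  rw [hre]
  have h1 : ∀ σ : Perm (Fin 6), h (σ 0) (σ 1) (σ 2) (σ 3) = ∑ i, ∑ j, ∑ k, ∑ l, h i j k l *
      (if σ 0 = i ∧ σ 1 = j ∧ σ 2 = k ∧ σ 3 = l then (1:ℝ) else 0) := by
    intro σ
    have : ∀ i j k l : Fin 6, h i j k l *
      (if σ 0 = i ∧ σ 1 = j ∧ σ 2 = k ∧ σ 3 = l then (1:ℝ) else 0) =
        (if σ 0 = i then (if σ 1 = j then (if σ 2 = k then (if σ 3 = l then h i j k l else 0)
          else 0) else 0) else 0) := by
      intro i j k l
      by_cases a0 : σ 0 = i <;> by_cases a1 : σ 1 = j <;> by_cases a2 : σ 2 = k <;>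
        by_cases a3 : σ 3 = l <;> simp [a0, a1, a2, a3]
    simp_rw [this]
    simp
  simp_rw [h1]
  have h2 : ∑ σ : Perm (Fin 6), ∑ i, ∑ j, ∑ k, ∑ l, h i j k l *
      (if σ 0 = i ∧ σ 1 = j ∧ σ 2 = k ∧ σ 3 = l then (1:ℝ) else 0) =
      ∑ i, ∑ j, ∑ k, ∑ l, h i j k l * ∑ σ : Perm (Fin 6),
      (if σ 0 = i ∧ σ 1 = j ∧ σ 2 = k ∧ σ 3 = l then (1:ℝ) else 0) := by
    simp_rw [Finset.mul_sum]
    rw [Finset.sum_comm]
    refine Finset.sum_congr rfl fun i _ => ?_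
    rw [Finset.sum_comm]
    refine Finset.sum_congr rfl fun j _ => ?_
    rw [Finset.sum_comm]
    refine Finset.sum_congr rfl fun k _ => ?_
    rw [Finset.sum_comm]
  rw [h2]
  have h3 : 2 * ∑ i, ∑ j, ∑ k, ∑ l, h i j k l = ∑ i, ∑ j, ∑ k, ∑ l, 2 * h i j k l := by
    simp_rw [Finset.mul_sum]
  rw [h3]
  refine sum_congr4 fun i j k l => ?_
  by_cases hij : i = j
  · subst hij; rw [h01]; simp
  by_cases hik : i = k
  · subst hik; rw [h02]; simp
  by_cases hil : i = l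
  · subst hil; rw [h03]; simp
  by_cases hjk : j = k
  · subst hjk; rw [h12]; simp
  by_cases hjl : j = l
  · subst hjl; rw [h13]; simp
  by_cases hkl : k = l
  · subst hkl; rw [h23]; simp
  rw [cnt_dist i j k l hij hik hil hjk hjl hkl]
  ring

/-- the identity tensor -/
def I4 : T4 := fun i j k l =>
  (if i = k then 1 else 0) * (if j = l then 1 else 0) -
    (if j = k then 1 else 0) * (if i = l then 1 else 0)

/-- half of the identity tensor -/
def D4 : T4 := fun i j k l => (if i = k then 1 else 0) * (if j = l then 1 else 0)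

lemma gb_I4_eq (X Y : T4) : gb I4 X Y = 2 * gb D4 X Y := by
  have h : I4 = D4 + (-1 : ℝ) • (fun i j k l => D4 j i k l) := by
    funext i j k l
    simp only [I4, D4, Pi.add_apply, Pi.smul_apply, smul_eq_mul]
    ring
  rw [h, gb_add1, gb_smul1, gb_swap1 D4 X Y]
  ring

/-- the reduced four-index expression -/
def h6 (X Y : T4) (i j k l : Fin 6) : ℝ :=
  X i j i j * Y k l k l - X i j i k * Y k l j l + X i j i l * Y k l j k + X i j j k * Y k l i l
    - X i j j l * Y k l i k + X i j k l * Y k l i j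

lemma skew2 {X : T4} (hs : ∀ i j k l, X i j k l = - X j i k l)
    (hp : ∀ i j k l, X i j k l = X k l i j) (i j k l : Fin 6) : X i j k l = - X i j l k := by
  rw [hp, hs, hp]

lemma h24_eq (X Y : T4) (hXs : ∀ i j k l, X i j k l = - X i j l k)
    (hYs : ∀ i j k l, Y i j k l = - Y i j l k) (v : Fin 4 → Fin 6) :
    ∑ ρ : Perm (Fin 4), sn ρ * (X (v 0) (v 1) (v (ρ 0)) (v (ρ 1)) *
      Y (v 2) (v 3) (v (ρ 2)) (v (ρ 3))) = 4 * h6 X Y (v 0) (v 1) (v 2) (v 3) := by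
  rw [sum_perm4 (fun a b c d => X (v 0) (v 1) (v a) (v b) * Y (v 2) (v 3) (v c) (v d))]
  generalize v 0 = i
  generalize v 1 = j
  generalize v 2 = k
  generalize v 3 = l
  rw [hXs i j j i, hXs i j k i, hXs i j l i, hXs i j k j, hXs i j l j, hXs i j l k,
    hYs k l j i, hYs k l k i, hYs k l l i, hYs k l k j, hYs k l l j, hYs k l l k]
  unfold h6
  ring

lemma gb_D4_eq (X Y : T4) (hXs : ∀ i j k l, X i j k l = - X i j l k)
    (hYs : ∀ i j k l, Y i j k l = - Y i j l k) :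
    gb D4 X Y = ∑ σ : Perm (Fin 6), 4 * h6 X Y (σ 2) (σ 3) (σ 4) (σ 5) := by
  unfold gb
  refine Finset.sum_congr rfl fun σ _ => ?_
  have h1 : ∑ τ : Perm (Fin 6), sn σ * sn τ * (D4 (σ 0) (σ 1) (τ 0) (τ 1) *
      X (σ 2) (σ 3) (τ 2) (τ 3) * Y (σ 4) (σ 5) (τ 4) (τ 5)) =
      ∑ π : Perm (Fin 6), sn π * (if π 0 = 0 then (if π 1 = 1 then
        X (σ 2) (σ 3) (σ (π 2)) (σ (π 3)) * Y (σ 4) (σ 5) (σ (π 4)) (σ (π 5)) else 0) else 0) := by
    symm
    refine Fintype.sum_equiv (Equiv.mulLeft σ) _ _ fun π => ?_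
    rw [Equiv.coe_mulLeft]
    simp only [Perm.mul_apply, sn_mul, D4, EmbeddingLike.apply_eq_iff_eq]
    have hs := sn_mul_self σ
    by_cases a0 : π 0 = 0
    · by_cases a1 : π 1 = 1
      · simp only [a0, a1, if_true]
        linear_combination (-sn π * (X (σ 2) (σ 3) (σ (π 2)) (σ (π 3)) *
          Y (σ 4) (σ 5) (σ (π 4)) (σ (π 5)))) * hs
      · have a1' : ¬ (1 = π 1) := fun h => a1 h.symm
        simp [a0, a1, a1']
    · have a0' : ¬ (0 = π 0) := fun h => a0 h.symm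
      simp [a0, a0']
  rw [h1, sum_fix_sn (fun g => if g 1 = 1 then
    X (σ 2) (σ 3) (σ (g 2)) (σ (g 3)) * Y (σ 4) (σ 5) (σ (g 4)) (σ (g 5)) else 0)]
  have h2 : ∀ τ : Perm (Fin 5), sn τ * (if (Fin.cons (0 : Fin 6) (fun x => (τ x).succ) :
      Fin 6 → Fin 6) 1 = 1 then
      X (σ 2) (σ 3) (σ ((Fin.cons (0 : Fin 6) (fun x => (τ x).succ) : Fin 6 → Fin 6) 2))
        (σ ((Fin.cons (0 : Fin 6) (fun x => (τ x).succ) : Fin 6 → Fin 6) 3)) *
      Y (σ 4) (σ 5) (σ ((Fin.cons (0 : Fin 6) (fun x => (τ x).succ) : Fin 6 → Fin 6) 4))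
        (σ ((Fin.cons (0 : Fin 6) (fun x => (τ x).succ) : Fin 6 → Fin 6) 5)) else 0) =
      sn τ * (if τ 0 = 0 then X (σ 2) (σ 3) (σ (τ 1).succ) (σ (τ 2).succ) *
        Y (σ 4) (σ 5) (σ (τ 3).succ) (σ (τ 4).succ) else 0) := by
    intro τ
    have e1 : ((Fin.cons (0 : Fin 6) (fun x => (τ x).succ) : Fin 6 → Fin 6) 1 = 1) ↔ τ 0 = 0 :=
      succ_eq_iff (τ 0) 0
    simp only [e1]
    rfl
  simp_rw [h2]
  rw [sum_fix_sn (fun g => X (σ 2) (σ 3) (σ (g 1).succ) (σ (g 2).succ) *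
        Y (σ 4) (σ 5) (σ (g 3).succ) (σ (g 4).succ))]
  exact h24_eq X Y hXs hYs (fun a => σ a.succ.succ)

lemma ric_symm (X : T4) (hXp : ∀ i j k l, X i j k l = X k l i j) (i k : Fin 6) :
    ric X i k = ric X k i := by
  unfold ric
  exact Finset.sum_congr rfl fun j _ => hXp _ _ _ _

lemma sum_h6 (X Y : T4) (hXs : ∀ i j k l, X i j k l = - X j i k l)
    (hXp : ∀ i j k l, X i j k l = X k l i j) (hYs : ∀ i j k l, Y i j k l = - Y j i k l)
    (hYp : ∀ i j k l, Y i j k l = Y k l i j) :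
    ∑ i, ∑ j, ∑ k, ∑ l, h6 X Y i j k l =
      scal X * scal Y - 4 * ip2 (ric X) (ric Y) + ip4 X Y := by
  have hX2 := skew2 hXs hXp
  have hY2 := skew2 hYs hYp
  have t1 : ∑ i, ∑ j, ∑ k, ∑ l, X i j i j * Y k l k l = scal X * scal Y := by
    unfold scal ric
    rw [sum_mul4]
  have core : ∑ j, ∑ k, ∑ i, ∑ l, X j i k i * Y k l j l = ip2 (ric X) (ric Y) := by
    unfold ip2
    refine Finset.sum_congr rfl fun j _ => Finset.sum_congr rfl fun k _ => ?_
    rw [ric_symm Y hYp j k]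
    unfold ric
    rw [Finset.sum_mul_sum]
  have t2 : ∑ i, ∑ j, ∑ k, ∑ l, X i j i k * Y k l j l = ip2 (ric X) (ric Y) := by
    rw [← core, sw01, sw12]
    refine sum_congr4 fun j k i l => ?_
    rw [hXs i j i k, hX2 j i i k]
    ring
  have t3 : ∑ i, ∑ j, ∑ k, ∑ l, X i j i l * Y k l j k = - ip2 (ric X) (ric Y) := by
    rw [← core, sw01, sw23, sw12]
    simp_rw [← Finset.sum_neg_distrib]
    refine sum_congr4 fun j k i l => ?_
    rw [hXs i j i k, hX2 j i i k, hYs l k j l]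
    ring
  have t4 : ∑ i, ∑ j, ∑ k, ∑ l, X i j j k * Y k l i l = - ip2 (ric X) (ric Y) := by
    rw [← core, sw12]
    simp_rw [← Finset.sum_neg_distrib]
    refine sum_congr4 fun j k i l => ?_
    rw [hX2 j i i k]
    ring
  have t5 : ∑ i, ∑ j, ∑ k, ∑ l, X i j j l * Y k l i k = ip2 (ric X) (ric Y) := by
    rw [← core, sw23, sw12]
    refine sum_congr4 fun j k i l => ?_
    rw [hX2 j i i k, hYs l k j l]
    ring
  have t6 : ∑ i, ∑ j, ∑ k, ∑ l, X i j k l * Y k l i j = ip4 X Y := by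
    unfold ip4
    refine sum_congr4 fun i j k l => ?_
    rw [hYp]
  unfold h6
  simp only [Finset.sum_add_distrib, Finset.sum_sub_distrib]
  rw [t1, t2, t3, t4, t5, t6]
  ring

/-- Contraction of the Gauss–Bonnet form with the identity tensor. -/
lemma gb_I4 (X Y : T4) (hXs : ∀ i j k l, X i j k l = - X j i k l)
    (hXp : ∀ i j k l, X i j k l = X k l i j) (hYs : ∀ i j k l, Y i j k l = - Y j i k l)
    (hYp : ∀ i j k l, Y i j k l = Y k l i j) :
    gb I4 X Y = 16 * (scal X * scal Y - 4 * ip2 (ric X) (ric Y) + ip4 X Y) := by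
  have hX2 := skew2 hXs hXp
  have hY2 := skew2 hYs hYp
  have hX0 : ∀ i k l, X i i k l = 0 := fun i k l => by have := hXs i i k l; linarith
  have hX0' : ∀ i k l, X k l i i = 0 := fun i k l => by have := hX2 k l i i; linarith
  have hY0 : ∀ i k l, Y i i k l = 0 := fun i k l => by have := hYs i i k l; linarith
  have hY0' : ∀ i k l, Y k l i i = 0 := fun i k l => by have := hY2 k l i i; linarith
  rw [gb_I4_eq, gb_D4_eq X Y hX2 hY2, sum_perm_four (fun i j k l => 4 * h6 X Y i j k l)]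
  · rw [← sum_h6 X Y hXs hXp hYs hYp]
    simp_rw [← Finset.mul_sum]
    ring
  · intro i k l
    unfold h6
    simp only [hX0]
    ring
  · intro i j l
    unfold h6
    rw [hX0' i, hX2 i j j i, hX2 i j j l, hY0' i, hY2 i l j i]
    ring
  · intro i j k
    unfold h6
    rw [hX0' i, hY0' i, hX2 i j j i, hY2 k i i k, hX2 i j k i, hY2 k i i j]
    ring
  · intro i j l
    unfold h6
    rw [hY0' j, hX0' j]
    ring
  · intro i j k
    unfold h6
    rw [hY0' j, hX0' j, hY2 k j j k, hX2 i j j k]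
    ring
  · intro i j k
    unfold h6
    simp only [hY0]
    ring

end H80Hopf
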