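import Pool.Agent.Lib.H80Hopf.Frame

/-!
# The four-dimensional Gauss–Bonnet form in an adapted frame
-/

open Finset Equiv

namespace H80Hopf

/-- four-tensors on `ℝ⁴` -/
abbrev S4 := Fin 4 → Fin 4 → Fin 4 → Fin 4 → ℝ

/-- the four-dimensional Gauss–Bonnet form -/
noncomputable def gb4 (y : S4) : ℝ :=
  ∑ σ : Perm (Fin 4), ∑ τ : Perm (Fin 4), sn σ * sn τ *
    (y (σ 0) (σ 1) (τ 0) (τ 1) * y (σ 2) (σ 3) (τ 2) (τ 3))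

lemma alt4_skew (A B : Fin 4 → Fin 4 → ℝ) (hA : ∀ i j, A i j = - A j i)
    (hB : ∀ i j, B i j = - B j i) :
    ∑ σ : Perm (Fin 4), sn σ * (A (σ 0) (σ 1) * B (σ 2) (σ 3)) =
      4 * (A 0 1 * B 2 3 - A 0 2 * B 1 3 + A 0 3 * B 1 2 + A 1 2 * B 0 3 - A 1 3 * B 0 2
        + A 2 3 * B 0 1) := by
  rw [sum_perm4 (fun a b c d => A a b * B c d)]
  rw [hA 1 0, hA 2 0, hA 3 0, hA 2 1, hA 3 1, hA 3 2, hB 1 0, hB 2 0, hB 3 0, hB 2 1, hB 3 1,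
    hB 3 2]
  ring

lemma gb4_expand (y : S4) (hs : ∀ i j k l, y i j k l = - y j i k l)
    (hs2 : ∀ i j k l, y i j k l = - y i j l k) :
    gb4 y = 4 * (4 * (
      (y 0 1 0 1 * y 2 3 2 3 - y 0 1 0 2 * y 2 3 1 3 + y 0 1 0 3 * y 2 3 1 2
        + y 0 1 1 2 * y 2 3 0 3 - y 0 1 1 3 * y 2 3 0 2 + y 0 1 2 3 * y 2 3 0 1)
      - (y 0 2 0 1 * y 1 3 2 3 - y 0 2 0 2 * y 1 3 1 3 + y 0 2 0 3 * y 1 3 1 2
        + y 0 2 1 2 * y 1 3 0 3 - y 0 2 1 3 * y 1 3 0 2 + y 0 2 2 3 * y 1 3 0 1)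
      + (y 0 3 0 1 * y 1 2 2 3 - y 0 3 0 2 * y 1 2 1 3 + y 0 3 0 3 * y 1 2 1 2
        + y 0 3 1 2 * y 1 2 0 3 - y 0 3 1 3 * y 1 2 0 2 + y 0 3 2 3 * y 1 2 0 1)
      + (y 1 2 0 1 * y 0 3 2 3 - y 1 2 0 2 * y 0 3 1 3 + y 1 2 0 3 * y 0 3 1 2
        + y 1 2 1 2 * y 0 3 0 3 - y 1 2 1 3 * y 0 3 0 2 + y 1 2 2 3 * y 0 3 0 1)
      - (y 1 3 0 1 * y 0 2 2 3 - y 1 3 0 2 * y 0 2 1 3 + y 1 3 0 3 * y 0 2 1 2
        + y 1 3 1 2 * y 0 2 0 3 - y 1 3 1 3 * y 0 2 0 2 + y 1 3 2 3 * y 0 2 0 1)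
      + (y 2 3 0 1 * y 0 1 2 3 - y 2 3 0 2 * y 0 1 1 3 + y 2 3 0 3 * y 0 1 1 2
        + y 2 3 1 2 * y 0 1 0 3 - y 2 3 1 3 * y 0 1 0 2 + y 2 3 2 3 * y 0 1 0 1))) := by
  unfold gb4
  rw [Finset.sum_comm]
  have h1 : ∀ τ : Perm (Fin 4), ∑ σ : Perm (Fin 4), sn σ * sn τ *
      (y (σ 0) (σ 1) (τ 0) (τ 1) * y (σ 2) (σ 3) (τ 2) (τ 3)) =
      4 * (sn τ * (y 0 1 (τ 0) (τ 1) * y 2 3 (τ 2) (τ 3)) -
        sn τ * (y 0 2 (τ 0) (τ 1) * y 1 3 (τ 2) (τ 3)) +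
        sn τ * (y 0 3 (τ 0) (τ 1) * y 1 2 (τ 2) (τ 3)) +
        sn τ * (y 1 2 (τ 0) (τ 1) * y 0 3 (τ 2) (τ 3)) -
        sn τ * (y 1 3 (τ 0) (τ 1) * y 0 2 (τ 2) (τ 3)) +
        sn τ * (y 2 3 (τ 0) (τ 1) * y 0 1 (τ 2) (τ 3))) := by
    intro τ
    have h2 := alt4_skew (fun i j => y i j (τ 0) (τ 1)) (fun i j => y i j (τ 2) (τ 3))
      (fun i j => hs _ _ _ _) (fun i j => hs _ _ _ _)
    have h3 : ∑ σ : Perm (Fin 4), sn σ * sn τ *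
      (y (σ 0) (σ 1) (τ 0) (τ 1) * y (σ 2) (σ 3) (τ 2) (τ 3)) =
      sn τ * ∑ σ : Perm (Fin 4), sn σ * (y (σ 0) (σ 1) (τ 0) (τ 1) *
        y (σ 2) (σ 3) (τ 2) (τ 3)) := by
      rw [Finset.mul_sum]
      refine Finset.sum_congr rfl fun σ _ => by ring
    rw [h3, h2]
    ring
  simp_rw [h1]
  rw [← Finset.mul_sum]
  simp only [Finset.sum_add_distrib, Finset.sum_sub_distrib]
  have key : ∀ a b c d : Fin 4, ∑ τ : Perm (Fin 4), sn τ * (y a b (τ 0) (τ 1) *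
      y c d (τ 2) (τ 3)) = 4 * (y a b 0 1 * y c d 2 3 - y a b 0 2 * y c d 1 3 +
      y a b 0 3 * y c d 1 2 + y a b 1 2 * y c d 0 3 - y a b 1 3 * y c d 0 2
        + y a b 2 3 * y c d 0 1) := fun a b c d =>
    alt4_skew (fun i j => y a b i j) (fun i j => y c d i j) (fun i j => hs2 _ _ _ _)
      (fun i j => hs2 _ _ _ _)
  rw [key, key, key, key, key, key]
  ring

/-- Nonnegativity of the four-dimensional form in an adapted frame. -/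
lemma gb4_nonneg (y : S4) (hs : ∀ i j k l, y i j k l = - y j i k l)
    (hp : ∀ i j k l, y i j k l = y k l i j)
    (h1 : y 0 1 1 2 = 0) (h2 : y 0 1 1 3 = 0) (h3 : y 0 1 0 2 = 0) (h4 : y 0 1 0 3 = 0)
    (h5 : y 0 2 1 2 = 0) (h6 : y 0 2 0 3 = 0)
    (k1 : 0 ≤ y 0 1 0 1) (k2 : 0 ≤ y 0 2 0 2) (k3 : 0 ≤ y 0 3 0 3) (k4 : 0 ≤ y 1 2 1 2)
    (k5 : 0 ≤ y 1 3 1 3) (k6 : 0 ≤ y 2 3 2 3) : 0 ≤ gb4 y := by
  have hs2 : ∀ i j k l, y i j k l = - y i j l k := by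
    intro i j k l
    rw [hp, hs, hp]
  rw [gb4_expand y hs hs2]
  rw [hp 0 2 0 1, hp 0 3 0 1, hp 1 2 0 1, hp 1 3 0 1, hp 2 3 0 1, hp 0 3 0 2, hp 1 2 0 2,
    hp 1 3 0 2, hp 2 3 0 2, hp 1 2 0 3, hp 1 3 0 3, hp 2 3 0 3, hp 1 3 1 2, hp 2 3 1 2,
    hp 2 3 1 3, h1, h2, h3, h4, h5, h6]
  have e1 := mul_nonneg k1 k6
  have e2 := mul_nonneg k2 k5
  have e3 := mul_nonneg k3 k4
  have e4 := mul_self_nonneg (y 0 1 2 3)
  have e5 := mul_self_nonneg (y 0 2 1 3)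
  have e6 := mul_self_nonneg (y 0 3 1 2)
  linarith

/-- the diagonal component of `Gt` as a four-dimensional form -/
lemma gb_el (y : T4) :
    gb (el 0 1 0 1) y y = gb4 (fun i j k l => y i.succ.succ j.succ.succ k.succ.succ l.succ.succ) := by
  have hsplit : ∀ σ τ : Perm (Fin 6), sn σ * sn τ * (el 0 1 0 1 (σ 0) (σ 1) (τ 0) (τ 1) *
      y (σ 2) (σ 3) (τ 2) (τ 3) * y (σ 4) (σ 5) (τ 4) (τ 5)) =
      sn τ * (if τ 0 = 0 then (if τ 1 = 1 then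
        sn σ * (if σ 0 = 0 then (if σ 1 = 1 then
          y (σ 2) (σ 3) (τ 2) (τ 3) * y (σ 4) (σ 5) (τ 4) (τ 5) else 0) else 0)
        else 0) else 0) := by
    intro σ τ
    unfold el
    by_cases a0 : σ 0 = 0 <;> by_cases a1 : σ 1 = 1 <;> by_cases a2 : τ 0 = 0 <;>
      by_cases a3 : τ 1 = 1 <;> simp [a0, a1, a2, a3]
    ring
  have hred : ∀ (H : Fin 6 → Fin 6 → Fin 6 → Fin 6 → ℝ),
      ∑ σ : Perm (Fin 6), sn σ * (if σ 0 = 0 then (if σ 1 = 1 then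
        H (σ 2) (σ 3) (σ 4) (σ 5) else 0) else 0) =
      ∑ ρ : Perm (Fin 4), sn ρ * H (ρ 0).succ.succ (ρ 1).succ.succ (ρ 2).succ.succ
        (ρ 3).succ.succ := by
    intro H
    rw [sum_fix_sn (fun g => if g 1 = 1 then H (g 2) (g 3) (g 4) (g 5) else 0)]
    have h2 : ∀ τ : Perm (Fin 5), sn τ * (if (Fin.cons (0 : Fin 6) (fun x => (τ x).succ) :
      Fin 6 → Fin 6) 1 = 1 then
      H ((Fin.cons (0 : Fin 6) (fun x => (τ x).succ) : Fin 6 → Fin 6) 2)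
        ((Fin.cons (0 : Fin 6) (fun x => (τ x).succ) : Fin 6 → Fin 6) 3)
        ((Fin.cons (0 : Fin 6) (fun x => (τ x).succ) : Fin 6 → Fin 6) 4)
        ((Fin.cons (0 : Fin 6) (fun x => (τ x).succ) : Fin 6 → Fin 6) 5) else 0) =
      sn τ * (if τ 0 = 0 then H (τ 1).succ (τ 2).succ (τ 3).succ (τ 4).succ else 0) := by
      intro τ
      have e1 : ((Fin.cons (0 : Fin 6) (fun x => (τ x).succ) : Fin 6 → Fin 6) 1 = 1) ↔ τ 0 = 0 :=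
        succ_eq_iff (τ 0) 0
      simp only [e1]
      rfl
    simp_rw [h2]
    rw [sum_fix_sn (fun g => H (g 1).succ (g 2).succ (g 3).succ (g 4).succ)]
    rfl
  unfold gb
  simp_rw [hsplit]
  rw [Finset.sum_comm]
  have h3 : ∀ τ : Perm (Fin 6), ∑ σ : Perm (Fin 6), sn τ * (if τ 0 = 0 then (if τ 1 = 1 then
        sn σ * (if σ 0 = 0 then (if σ 1 = 1 then
          y (σ 2) (σ 3) (τ 2) (τ 3) * y (σ 4) (σ 5) (τ 4) (τ 5) else 0) else 0)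
        else 0) else 0) =
      sn τ * (if τ 0 = 0 then (if τ 1 = 1 then
        ∑ ρ : Perm (Fin 4), sn ρ * (y (ρ 0).succ.succ (ρ 1).succ.succ (τ 2) (τ 3) *
          y (ρ 2).succ.succ (ρ 3).succ.succ (τ 4) (τ 5)) else 0) else 0) := by
    intro τ
    rw [← Finset.mul_sum]
    congr 1
    by_cases a0 : τ 0 = 0
    · by_cases a1 : τ 1 = 1
      · simp only [a0, a1, if_true]
        exact hred (fun p q r s => y p q (τ 2) (τ 3) * y r s (τ 4) (τ 5))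
      · simp [a1]
    · simp [a0]
  simp_rw [h3]
  rw [hred (fun p q r s => ∑ ρ : Perm (Fin 4), sn ρ * (y (ρ 0).succ.succ (ρ 1).succ.succ p q *
          y (ρ 2).succ.succ (ρ 3).succ.succ r s))]
  unfold gb4
  simp_rw [Finset.mul_sum]
  rw [Finset.sum_comm]
  refine Finset.sum_congr rfl fun σ _ => Finset.sum_congr rfl fun τ _ => ?_
  ring

end H80Hopf
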