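import Pool.Agent.Lib.H80Hopf.Final

/-!
# Hopf conjecture in dimension six: pinching constant `1 / 5`

If the sectional curvatures of a six-dimensional algebraic curvature tensor all lie in
`[-5k, -k]` for some `k > 0`, then the Gauss–Bonnet–Chern integrand is negative. In particular
this holds for (pointwise) quarter-pinched negative curvature `-4k ≤ K ≤ -k`.
-/

namespace Pool.Agent.Lib.H80Hopf.FifthPinching

open HopfSix

/-- `secCurv R x y = ∑ R i j k l * x i * y j * x k * y l`; for orthonormal `x`, `y` this is the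
sectional curvature of the plane spanned by `x` and `y`. -/
def secCurv (R : Fin 6 → Fin 6 → Fin 6 → Fin 6 → ℝ) (x y : Fin 6 → ℝ) : ℝ :=
  ∑ i, ∑ j, ∑ k, ∑ l, R i j k l * (x i * (y j * (x k * y l)))

theorem gaussBonnet_neg (R : Fin 6 → Fin 6 → Fin 6 → Fin 6 → ℝ) (hR : IsAlgCurv R) (k : ℝ) (hk : 0 < k)
    (hpinch : ∀ x y : Fin 6 → ℝ, ∑ i, x i * x i = 1 → ∑ i, y i * y i = 1 → ∑ i, x i * y i = 0 →
      -5 * k ≤ secCurv R x y ∧ secCurv R x y ≤ -k) :
    gaussBonnet R < 0 :=
  H80Hopf.gaussBonnet_neg_of_pinched R hR k hk hpinch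

end Pool.Agent.Lib.H80Hopf.FifthPinching
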