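import Pool.Agent.Lib.H80Hopf.Contr

/-!
# Change of frame in the polarized Gauss–Bonnet form
-/

open Finset Equiv

namespace H80Hopf

lemma sum_mul6 (A B C : Fin 6 → Fin 6 → ℝ) :
    (∑ p, ∑ q, A p q) * (∑ r, ∑ s, B r s) * (∑ t, ∑ u, C t u) =
      ∑ p, ∑ q, ∑ r, ∑ s, ∑ t, ∑ u, A p q * B r s * C t u := by
  rw [sum_mul4]
  have h : ∀ c : ℝ, (∑ p, ∑ q, ∑ r, ∑ s, A p q * B r s) * c =
      ∑ p, ∑ q, ∑ r, ∑ s, A p q * B r s * c := by
    intro c
    simp_rw [Finset.sum_mul]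
  rw [h]
  refine sum_congr4 fun p q r s => ?_
  rw [Finset.mul_sum]
  refine Finset.sum_congr rfl fun t _ => ?_
  rw [Finset.mul_sum]

/-- expansion of a triple alternating sum along the columns of `O` -/
lemma W_expand (O : Fin 6 → Fin 6 → ℝ) (a b c : Fin 6 → Fin 6 → ℝ) :
    ∑ σ : Perm (Fin 6), sn σ * ((∑ p, ∑ q, a p q * (O (σ 0) p * O (σ 1) q)) *
      (∑ r, ∑ s, b r s * (O (σ 2) r * O (σ 3) s)) *
      (∑ t, ∑ u, c t u * (O (σ 4) t * O (σ 5) u))) =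
    ∑ p, ∑ q, ∑ r, ∑ s, ∑ t, ∑ u, (a p q * b r s * c t u) *
      ((Matrix.of O).submatrix id ![p, q, r, s, t, u]).det := by
  have h1 : ∀ p q r s t u : Fin 6, ((Matrix.of O).submatrix id ![p, q, r, s, t, u]).det =
      ∑ σ : Perm (Fin 6), sn σ * (O (σ 0) p * O (σ 1) q * (O (σ 2) r * O (σ 3) s) *
        (O (σ 4) t * O (σ 5) u)) := by
    intro p q r s t u
    rw [Matrix.det_apply']
    refine Finset.sum_congr rfl fun σ _ => ?_
    rw [Fin.prod_univ_six]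
    simp only [Matrix.submatrix_apply, id, Matrix.of_apply, sn]
    simp
    ring
  simp_rw [h1]
  have h2 : ∀ σ : Perm (Fin 6), sn σ * ((∑ p, ∑ q, a p q * (O (σ 0) p * O (σ 1) q)) *
      (∑ r, ∑ s, b r s * (O (σ 2) r * O (σ 3) s)) *
      (∑ t, ∑ u, c t u * (O (σ 4) t * O (σ 5) u))) =
      ∑ p, ∑ q, ∑ r, ∑ s, ∑ t, ∑ u, (a p q * b r s * c t u) * (sn σ *
        (O (σ 0) p * O (σ 1) q * (O (σ 2) r * O (σ 3) s) * (O (σ 4) t * O (σ 5) u))) := by
    intro σ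
    rw [sum_mul6]
    simp_rw [Finset.mul_sum]
    refine Finset.sum_congr rfl fun p _ => Finset.sum_congr rfl fun q _ =>
      Finset.sum_congr rfl fun r _ => Finset.sum_congr rfl fun s _ =>
      Finset.sum_congr rfl fun t _ => Finset.sum_congr rfl fun u _ => ?_
    ring
  simp_rw [h2, Finset.mul_sum]
  rw [Finset.sum_comm]
  refine Finset.sum_congr rfl fun p _ => ?_
  rw [Finset.sum_comm]
  refine Finset.sum_congr rfl fun q _ => ?_
  rw [Finset.sum_comm]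
  refine Finset.sum_congr rfl fun r _ => ?_
  rw [Finset.sum_comm]
  refine Finset.sum_congr rfl fun s _ => ?_
  rw [Finset.sum_comm]
  refine Finset.sum_congr rfl fun t _ => ?_
  rw [Finset.sum_comm]

lemma det_sub (O : Matrix (Fin 6) (Fin 6) ℝ) (f : Fin 6 → Fin 6) :
    (O.submatrix id f).det = O.det * ((1 : Matrix (Fin 6) (Fin 6) ℝ).submatrix id f).det := by
  rw [← Matrix.det_mul]
  congr 1
  ext i j
  simp [Matrix.mul_apply, Matrix.one_apply]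

lemma W_conj (O : Fin 6 → Fin 6 → ℝ) (a b c : Fin 6 → Fin 6 → ℝ) :
    ∑ σ : Perm (Fin 6), sn σ * ((∑ p, ∑ q, a p q * (O (σ 0) p * O (σ 1) q)) *
      (∑ r, ∑ s, b r s * (O (σ 2) r * O (σ 3) s)) *
      (∑ t, ∑ u, c t u * (O (σ 4) t * O (σ 5) u))) =
    (Matrix.of O).det * ∑ σ : Perm (Fin 6), sn σ *
      (a (σ 0) (σ 1) * b (σ 2) (σ 3) * c (σ 4) (σ 5)) := by
  have h1 : ∑ σ : Perm (Fin 6), sn σ * (a (σ 0) (σ 1) * b (σ 2) (σ 3) * c (σ 4) (σ 5)) =
      ∑ p, ∑ q, ∑ r, ∑ s, ∑ t, ∑ u, (a p q * b r s * c t u) *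
      ((1 : Matrix (Fin 6) (Fin 6) ℝ).submatrix id ![p, q, r, s, t, u]).det := by
    have := W_expand (fun i j => if i = j then 1 else 0) a b c
    have e : (Matrix.of (fun i j : Fin 6 => if i = j then (1:ℝ) else 0)) = 1 := by
      ext i j
      simp [Matrix.one_apply]
    rw [e] at this
    rw [← this]
    refine Finset.sum_congr rfl fun σ _ => ?_
    simp
  rw [W_expand, h1]
  simp_rw [Finset.mul_sum]
  refine Finset.sum_congr rfl fun p _ => Finset.sum_congr rfl fun q _ =>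
    Finset.sum_congr rfl fun r _ => Finset.sum_congr rfl fun s _ =>
    Finset.sum_congr rfl fun t _ => Finset.sum_congr rfl fun u _ => ?_
  rw [det_sub]
  ring

/-- change of frame in the first pair -/
def c1 (O : Fin 6 → Fin 6 → ℝ) (X : T4) : T4 :=
  fun i j k l => ∑ a, ∑ b, X a b k l * (O i a * O j b)

/-- change of frame in the second pair -/
def c2 (O : Fin 6 → Fin 6 → ℝ) (X : T4) : T4 :=
  fun i j k l => ∑ c, ∑ d, X i j c d * (O k c * O l d)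

lemma gb_c1 (O : Fin 6 → Fin 6 → ℝ) (X Y Z : T4) :
    gb (c1 O X) (c1 O Y) (c1 O Z) = (Matrix.of O).det * gb X Y Z := by
  unfold gb
  rw [Finset.sum_comm, Finset.sum_comm (s := univ (α := Perm (Fin 6))) (t := univ)
    (f := fun σ τ => sn σ * sn τ *
    (X (σ 0) (σ 1) (τ 0) (τ 1) * Y (σ 2) (σ 3) (τ 2) (τ 3) * Z (σ 4) (σ 5) (τ 4) (τ 5))),
    Finset.mul_sum]
  refine Finset.sum_congr rfl fun τ _ => ?_
  have := W_conj O (fun p q => X p q (τ 0) (τ 1)) (fun p q => Y p q (τ 2) (τ 3))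
    (fun p q => Z p q (τ 4) (τ 5))
  have h1 : ∑ σ : Perm (Fin 6), sn σ * sn τ * (c1 O X (σ 0) (σ 1) (τ 0) (τ 1) *
      c1 O Y (σ 2) (σ 3) (τ 2) (τ 3) * c1 O Z (σ 4) (σ 5) (τ 4) (τ 5)) =
      sn τ * ∑ σ : Perm (Fin 6), sn σ * ((∑ p, ∑ q, X p q (τ 0) (τ 1) * (O (σ 0) p * O (σ 1) q)) *
      (∑ r, ∑ s, Y r s (τ 2) (τ 3) * (O (σ 2) r * O (σ 3) s)) *
      (∑ t, ∑ u, Z t u (τ 4) (τ 5) * (O (σ 4) t * O (σ 5) u))) := by
    rw [Finset.mul_sum]
    refine Finset.sum_congr rfl fun σ _ => ?_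
    unfold c1
    ring
  rw [h1, this]
  simp_rw [Finset.mul_sum]
  refine Finset.sum_congr rfl fun σ _ => ?_
  ring

lemma gb_flip (X Y Z : T4) :
    gb (fun i j k l => X k l i j) (fun i j k l => Y k l i j) (fun i j k l => Z k l i j) =
      gb X Y Z := by
  unfold gb
  rw [Finset.sum_comm]
  refine Finset.sum_congr rfl fun σ _ => Finset.sum_congr rfl fun τ _ => ?_
  ring

lemma gb_c2 (O : Fin 6 → Fin 6 → ℝ) (X Y Z : T4) :
    gb (c2 O X) (c2 O Y) (c2 O Z) = (Matrix.of O).det * gb X Y Z := by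
  rw [← gb_flip, ← gb_flip X Y Z]
  exact gb_c1 O (fun i j k l => X k l i j) (fun i j k l => Y k l i j) (fun i j k l => Z k l i j)

/-- evaluation of a tensor on four vectors -/
def ev (Y : T4) (x y z w : Fin 6 → ℝ) : ℝ :=
  ∑ a, ∑ b, ∑ c, ∑ d, Y a b c d * (x a * (y b * (z c * w d)))

/-- components of a tensor in the frame given by the rows of `O` -/
def fr (O : Fin 6 → Fin 6 → ℝ) (Y : T4) : T4 := fun i j k l => ev Y (O i) (O j) (O k) (O l)

lemma fr_eq (O : Fin 6 → Fin 6 → ℝ) (Y : T4) : fr O Y = c1 O (c2 O Y) := by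
  funext i j k l
  unfold fr ev c1 c2
  simp_rw [Finset.sum_mul]
  refine sum_congr4 fun a b c d => ?_
  ring

lemma gb_fr (O : Fin 6 → Fin 6 → ℝ) (X Y Z : T4) :
    gb (fr O X) (fr O Y) (fr O Z) = (Matrix.of O).det ^ 2 * gb X Y Z := by
  rw [fr_eq, fr_eq, fr_eq, gb_c1, gb_c2]
  ring

end H80Hopf
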