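import Pool.Agent.Lib.H80Hopf.Milnor2

/-!
# Contractions with the identity tensor and with Kulkarni–Nomizu products
-/

open Finset Equiv

namespace H80Hopf

/-- skewness and pair symmetry -/
structure Sym (X : T4) : Prop where
  skew : ∀ i j k l, X i j k l = - X j i k l
  pair : ∀ i j k l, X i j k l = X k l i j

lemma Sym.add {X Y : T4} (hX : Sym X) (hY : Sym Y) : Sym (X + Y) where
  skew i j k l := by simp only [Pi.add_apply]; rw [hX.skew, hY.skew]; ring
  pair i j k l := by simp only [Pi.add_apply]; rw [hX.pair, hY.pair]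

lemma Sym.smul {X : T4} (hX : Sym X) (c : ℝ) : Sym (c • X) where
  skew i j k l := by simp only [Pi.smul_apply, smul_eq_mul]; rw [hX.skew]; ring
  pair i j k l := by simp only [Pi.smul_apply, smul_eq_mul]; rw [hX.pair]

lemma Sym.skew2 {X : T4} (hX : Sym X) (i j k l : Fin 6) : X i j k l = - X i j l k :=
  H80Hopf.skew2 hX.skew hX.pair i j k l

lemma sym_Gt {Y : T4} (hY : Sym Y) : Sym (Gt Y) := ⟨Gt_skew Y, Gt_pair Y hY.pair⟩

lemma sym_I4 : Sym I4 where
  skew i j k l := by unfold I4; ring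
  pair i j k l := by
    unfold I4
    simp only [eq_comm (a := k) (b := i), eq_comm (a := l) (b := j), eq_comm (a := l) (b := i),
      eq_comm (a := k) (b := j)]
    ring

lemma bianchi_I4 (i j k l : Fin 6) : I4 i j k l + I4 j k i l + I4 k i j l = 0 := by
  unfold I4
  simp only [eq_comm (a := k) (b := i), eq_comm (a := k) (b := j), eq_comm (a := j) (b := i)]
  ring

lemma gb_comm13 (X Y Z : T4) : gb X Y Z = gb Z Y X := by
  rw [gb_comm12, gb_comm23, gb_comm12]

/-! ### linearity of contractions -/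

lemma ric_add (X Y : T4) : ric (X + Y) = ric X + ric Y := by
  funext i k
  simp [ric, Finset.sum_add_distrib]

lemma ric_smul (c : ℝ) (X : T4) : ric (c • X) = c • ric X := by
  funext i k
  simp [ric, Finset.mul_sum]

lemma scal_add (X Y : T4) : scal (X + Y) = scal X + scal Y := by
  simp [scal, ric_add, Finset.sum_add_distrib]

lemma scal_smul (c : ℝ) (X : T4) : scal (c • X) = c * scal X := by
  simp [scal, ric_smul, Finset.mul_sum]

lemma ip4_comm (X Y : T4) : ip4 X Y = ip4 Y X := by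
  unfold ip4
  exact sum_congr4 fun i j k l => mul_comm _ _

lemma ip4_add (X Y Z : T4) : ip4 (X + Y) Z = ip4 X Z + ip4 Y Z := by
  unfold ip4
  simp_rw [← Finset.sum_add_distrib]
  refine sum_congr4 fun i j k l => ?_
  simp only [Pi.add_apply]
  ring

lemma ip4_smul (c : ℝ) (X Z : T4) : ip4 (c • X) Z = c * ip4 X Z := by
  unfold ip4
  simp_rw [Finset.mul_sum]
  refine sum_congr4 fun i j k l => ?_
  simp only [Pi.smul_apply, smul_eq_mul]
  ring

lemma ip4_add' (X Y Z : T4) : ip4 Z (X + Y) = ip4 Z X + ip4 Z Y := by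
  rw [ip4_comm, ip4_add, ip4_comm X, ip4_comm Y]

lemma ip4_smul' (c : ℝ) (X Z : T4) : ip4 Z (c • X) = c * ip4 Z X := by
  rw [ip4_comm, ip4_smul, ip4_comm]

lemma ip2_comm (X Y : Fin 6 → Fin 6 → ℝ) : ip2 X Y = ip2 Y X := by
  unfold ip2
  exact Finset.sum_congr rfl fun i _ => Finset.sum_congr rfl fun j _ => mul_comm _ _

lemma ip2_add (X Y Z : Fin 6 → Fin 6 → ℝ) : ip2 (X + Y) Z = ip2 X Z + ip2 Y Z := by
  unfold ip2
  simp_rw [← Finset.sum_add_distrib]
  refine Finset.sum_congr rfl fun i _ => Finset.sum_congr rfl fun j _ => ?_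
  simp only [Pi.add_apply]
  ring

lemma ip2_smul (c : ℝ) (X Z : Fin 6 → Fin 6 → ℝ) : ip2 (c • X) Z = c * ip2 X Z := by
  unfold ip2
  simp_rw [Finset.mul_sum]
  refine Finset.sum_congr rfl fun i _ => Finset.sum_congr rfl fun j _ => ?_
  simp only [Pi.smul_apply, smul_eq_mul]
  ring

lemma ip2_add' (X Y Z : Fin 6 → Fin 6 → ℝ) : ip2 Z (X + Y) = ip2 Z X + ip2 Z Y := by
  rw [ip2_comm, ip2_add, ip2_comm X, ip2_comm Y]

lemma ip2_smul' (c : ℝ) (X Z : Fin 6 → Fin 6 → ℝ) : ip2 Z (c • X) = c * ip2 Z X := by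
  rw [ip2_comm, ip2_smul, ip2_comm]

/-- Kronecker delta -/
def de : Fin 6 → Fin 6 → ℝ := fun i j => if i = j then 1 else 0

/-- trace of a `2`-tensor -/
def tr2 (r : Fin 6 → Fin 6 → ℝ) : ℝ := ∑ i, r i i

lemma ip2_de (r : Fin 6 → Fin 6 → ℝ) : ip2 r de = tr2 r := by
  unfold ip2 de tr2
  simp

lemma tr2_ric (X : T4) : tr2 (ric X) = scal X := rfl

lemma tr2_de : tr2 de = 6 := by simp [tr2, de]

/-! ### Kulkarni–Nomizu products with the metric -/

/-- Kulkarni–Nomizu product of a symmetric `2`-tensor with the metric -/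
def kn (r : Fin 6 → Fin 6 → ℝ) : T4 := fun i j k l =>
  de i k * r j l + r i k * de j l - de i l * r j k - r i l * de j k

lemma de_comm (i j : Fin 6) : de i j = de j i := by simp [de, eq_comm]

lemma sym_kn {r : Fin 6 → Fin 6 → ℝ} (hr : ∀ i j, r i j = r j i) : Sym (kn r) where
  skew i j k l := by unfold kn; ring
  pair i j k l := by
    unfold kn
    rw [de_comm k i, de_comm l j, de_comm k j, de_comm l i, hr l j, hr k i, hr l i, hr k j]
    ring

lemma kn_de : kn de = (2:ℝ) • I4 := by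
  funext i j k l
  simp only [kn, I4, de, Pi.smul_apply, smul_eq_mul]
  ring

lemma ip4_kn {X : T4} (hX : Sym X) (r : Fin 6 → Fin 6 → ℝ) :
    ip4 X (kn r) = 4 * ip2 (ric X) r := by
  have t2 : ∑ i, ∑ j, ∑ k, ∑ l, X i j k l * (r i k * de j l) = ip2 (ric X) r := by
    unfold ip2 ric de
    have h : ∀ i j k : Fin 6, ∑ l, X i j k l * (r i k * (if j = l then 1 else 0)) =
        X i j k j * r i k := by
      intro i j k
      simp
    simp_rw [h, Finset.sum_mul]
    refine Finset.sum_congr rfl fun i _ => ?_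
    rw [Finset.sum_comm]
  have t1 : ∑ i, ∑ j, ∑ k, ∑ l, X i j k l * (de i k * r j l) = ip2 (ric X) r := by
    rw [← t2, sw01, sw23]
    refine sum_congr4 fun i j k l => ?_
    rw [hX.skew j i l k, hX.skew2 i j l k]
    ring
  have t4 : ∑ i, ∑ j, ∑ k, ∑ l, X i j k l * (r i l * de j k) = - ip2 (ric X) r := by
    rw [← t2, sw23]
    simp_rw [← Finset.sum_neg_distrib]
    refine sum_congr4 fun i j k l => ?_
    rw [hX.skew2 i j l k]
    ring
  have t3 : ∑ i, ∑ j, ∑ k, ∑ l, X i j k l * (de i l * r j k) = - ip2 (ric X) r := by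
    rw [← t1, sw23]
    simp_rw [← Finset.sum_neg_distrib]
    refine sum_congr4 fun i j k l => ?_
    rw [hX.skew2 i j l k]
    ring
  have : ip4 X (kn r) = ∑ i, ∑ j, ∑ k, ∑ l, X i j k l * (de i k * r j l) +
      ∑ i, ∑ j, ∑ k, ∑ l, X i j k l * (r i k * de j l) -
      ∑ i, ∑ j, ∑ k, ∑ l, X i j k l * (de i l * r j k) -
      ∑ i, ∑ j, ∑ k, ∑ l, X i j k l * (r i l * de j k) := by
    unfold ip4 kn
    simp_rw [← Finset.sum_add_distrib, ← Finset.sum_sub_distrib]
    refine sum_congr4 fun i j k l => ?_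
    ring
  rw [this, t1, t2, t3, t4]
  ring

lemma ric_kn (r : Fin 6 → Fin 6 → ℝ) : ric (kn r) = (4:ℝ) • r + tr2 r • de := by
  funext i k
  have h1 : ∑ j, de i k * r j j = de i k * tr2 r := by
    rw [tr2, Finset.mul_sum]
  have h2 : ∑ j, r i k * de j j = 6 * r i k := by
    simp [de]
  have h3 : ∑ j, de i j * r j k = r i k := by
    simp [de]
  have h4 : ∑ j, r i j * de j k = r i k := by
    simp [de]
  unfold ric kn
  simp only [Finset.sum_add_distrib, Finset.sum_sub_distrib]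
  rw [h1, h2, h3, h4]
  simp only [Pi.add_apply, Pi.smul_apply, smul_eq_mul]
  ring

lemma scal_kn (r : Fin 6 → Fin 6 → ℝ) : scal (kn r) = 10 * tr2 r := by
  rw [← tr2_ric, ric_kn]
  have : tr2 ((4:ℝ) • r + tr2 r • de) = 4 * tr2 r + tr2 r * tr2 de := by
    simp only [tr2, Pi.add_apply, Pi.smul_apply, smul_eq_mul, Finset.sum_add_distrib,
      ← Finset.mul_sum]
  rw [this, tr2_de]
  ring

lemma ric_I4 : ric I4 = (5:ℝ) • de := by
  have h : I4 = (1/2:ℝ) • kn de := by
    rw [kn_de, smul_smul]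
    norm_num
  rw [h, ric_smul, ric_kn, tr2_de]
  funext i k
  simp only [Pi.add_apply, Pi.smul_apply, smul_eq_mul]
  ring

lemma scal_I4 : scal I4 = 30 := by
  rw [← tr2_ric, ric_I4]
  simp [tr2, de]
  norm_num

lemma ip4_I4 {X : T4} (hX : Sym X) : ip4 X I4 = 2 * scal X := by
  have h : I4 = (1/2:ℝ) • kn de := by
    rw [kn_de, smul_smul]
    norm_num
  rw [h, ip4_smul', ip4_kn hX, ip2_de, tr2_ric]
  ring

/-- the sectional form of the identity tensor -/
lemma sec_I4 (x y : Fin 6 → ℝ) :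
    sec I4 x y = (∑ i, x i ^ 2) * (∑ i, y i ^ 2) - (∑ i, x i * y i) ^ 2 := by
  have h1 : ∑ i, ∑ j, ∑ k, ∑ l, ((if i = k then (1:ℝ) else 0) * (if j = l then 1 else 0)) *
      (x i * (y j * (x k * y l))) = (∑ i, x i ^ 2) * (∑ i, y i ^ 2) := by
    rw [Finset.sum_mul_sum]
    refine Finset.sum_congr rfl fun i _ => Finset.sum_congr rfl fun j _ => ?_
    simp
    ring
  have h2 : ∑ i, ∑ j, ∑ k, ∑ l, ((if j = k then (1:ℝ) else 0) * (if i = l then 1 else 0)) *
      (x i * (y j * (x k * y l))) = (∑ i, x i * y i) ^ 2 := by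
    rw [pow_two, Finset.sum_mul_sum]
    refine Finset.sum_congr rfl fun i _ => Finset.sum_congr rfl fun j _ => ?_
    simp
    ring
  rw [← h1, ← h2]
  unfold sec I4
  simp_rw [← Finset.sum_sub_distrib]
  refine sum_congr4 fun i j k l => ?_
  ring

lemma sec_add (X Y : T4) (x y : Fin 6 → ℝ) : sec (X + Y) x y = sec X x y + sec Y x y := by
  unfold sec
  simp_rw [← Finset.sum_add_distrib]
  refine sum_congr4 fun i j k l => ?_
  simp only [Pi.add_apply]
  ring

lemma sec_smul (c : ℝ) (X : T4) (x y : Fin 6 → ℝ) : sec (c • X) x y = c * sec X x y := by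
  unfold sec
  simp_rw [Finset.mul_sum]
  refine sum_congr4 fun i j k l => ?_
  simp only [Pi.smul_apply, smul_eq_mul]
  ring

/-! ### values of the Gauss–Bonnet form -/

lemma gb_I4' {X Y : T4} (hX : Sym X) (hY : Sym Y) :
    gb I4 X Y = 16 * (scal X * scal Y - 4 * ip2 (ric X) (ric Y) + ip4 X Y) :=
  gb_I4 X Y hX.skew hX.pair hY.skew hY.pair

lemma gb_III : gb I4 I4 I4 = 5760 := by
  rw [gb_I4' sym_I4 sym_I4, scal_I4, ip4_I4 sym_I4, scal_I4, ric_I4, ip2_smul, ip2_smul', ip2_de,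
    tr2_de]
  norm_num

lemma gb_IIX {X : T4} (hX : Sym X) : gb I4 I4 X = 192 * scal X := by
  rw [gb_I4' sym_I4 hX, scal_I4, ip4_comm, ip4_I4 hX, ric_I4, ip2_smul, ip2_comm, ip2_de,
    tr2_ric]
  ring

end H80Hopf
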