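import Pool.Agent.Lib.H80Hopf.Core4

/-!
# Nonnegativity of the sectional curvatures of `*(Y ∧ Y)*`
-/

open Finset Equiv

namespace H80Hopf

lemma ev_comb1 (Y : T4) (c s : ℝ) (x z y w v : Fin 6 → ℝ) :
    ev Y (c • x + s • z) y w v = c * ev Y x y w v + s * ev Y z y w v := by
  unfold ev
  simp_rw [Finset.mul_sum, ← Finset.sum_add_distrib]
  refine sum_congr4 fun i j k l => ?_
  simp only [Pi.add_apply, Pi.smul_apply, smul_eq_mul]
  ring

lemma ev_comb2 (Y : T4) (c s : ℝ) (x z y w v : Fin 6 → ℝ) :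
    ev Y y (c • x + s • z) w v = c * ev Y y x w v + s * ev Y y z w v := by
  unfold ev
  simp_rw [Finset.mul_sum, ← Finset.sum_add_distrib]
  refine sum_congr4 fun i j k l => ?_
  simp only [Pi.add_apply, Pi.smul_apply, smul_eq_mul]
  ring

lemma ev_comb3 (Y : T4) (c s : ℝ) (x z y w v : Fin 6 → ℝ) :
    ev Y y w (c • x + s • z) v = c * ev Y y w x v + s * ev Y y w z v := by
  unfold ev
  simp_rw [Finset.mul_sum, ← Finset.sum_add_distrib]
  refine sum_congr4 fun i j k l => ?_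
  simp only [Pi.add_apply, Pi.smul_apply, smul_eq_mul]
  ring

lemma ev_comb4 (Y : T4) (c s : ℝ) (x z y w v : Fin 6 → ℝ) :
    ev Y y w v (c • x + s • z) = c * ev Y y w v x + s * ev Y y w v z := by
  unfold ev
  simp_rw [Finset.mul_sum, ← Finset.sum_add_distrib]
  refine sum_congr4 fun i j k l => ?_
  simp only [Pi.add_apply, Pi.smul_apply, smul_eq_mul]
  ring

lemma ev_skew (Y : T4) (hs : ∀ i j k l, Y i j k l = - Y j i k l) (x y z w : Fin 6 → ℝ) :
    ev Y x y z w = - ev Y y x z w := by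
  unfold ev
  rw [sw01]
  simp_rw [← Finset.sum_neg_distrib]
  refine sum_congr4 fun i j k l => ?_
  rw [hs j i k l]
  ring

lemma ev_pair (Y : T4) (hp : ∀ i j k l, Y i j k l = Y k l i j) (x y z w : Fin 6 → ℝ) :
    ev Y x y z w = ev Y z w x y := by
  unfold ev
  rw [sw12, sw01, sw23, sw12]
  refine sum_congr4 fun i j k l => ?_
  rw [hp k l i j]
  ring

lemma sec_eq_ev (Y : T4) (x y : Fin 6 → ℝ) : sec Y x y = ev Y x y x y := rfl

/-- expansion of the sectional form along a rotated first vector -/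
lemma sec_comb1 (Y : T4) (hp : ∀ i j k l, Y i j k l = Y k l i j) (c s : ℝ)
    (x z y : Fin 6 → ℝ) :
    sec Y (c • x + s • z) y = c ^ 2 * sec Y x y + 2 * c * s * ev Y x y z y + s ^ 2 * sec Y z y := by
  simp only [sec_eq_ev, ev_comb1, ev_comb3]
  rw [ev_pair Y hp z y x y]
  ring

/-- expansion of the sectional form along a rotated second vector -/
lemma sec_comb2 (Y : T4) (hp : ∀ i j k l, Y i j k l = Y k l i j) (c s : ℝ)
    (x z y : Fin 6 → ℝ) :
    sec Y y (c • x + s • z) = c ^ 2 * sec Y y x + 2 * c * s * ev Y y x y z + s ^ 2 * sec Y y z := by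
  simp only [sec_eq_ev, ev_comb2, ev_comb4]
  rw [ev_pair Y hp y z y x]
  ring

lemma ev_same (Y : T4) (hs : ∀ i j k l, Y i j k l = - Y j i k l) (x z w : Fin 6 → ℝ) :
    ev Y x x z w = 0 := by
  have := ev_skew Y hs x x z w
  linarith

lemma ev_same' (Y : T4) (hs : ∀ i j k l, Y i j k l = - Y j i k l)
    (hp : ∀ i j k l, Y i j k l = Y k l i j) (x z w : Fin 6 → ℝ) :
    ev Y z w x x = 0 := by
  rw [ev_pair Y hp]
  exact ev_same Y hs x z w

/-- the sectional form is invariant under rotations of the plane -/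
lemma sec_rot (Y : T4) (hs : ∀ i j k l, Y i j k l = - Y j i k l)
    (hp : ∀ i j k l, Y i j k l = Y k l i j) (c s : ℝ) (hcs : c ^ 2 + s ^ 2 = 1)
    (x z : Fin 6 → ℝ) :
    sec Y (c • x + s • z) ((-s) • x + c • z) = sec Y x z := by
  simp only [sec_eq_ev, ev_comb1, ev_comb2, ev_comb3, ev_comb4, ev_same Y hs, ev_same' Y hs hp]
  rw [ev_skew Y hs z x x z, ev_pair Y hp x z z x, ev_skew Y hs z x x z,
    ev_pair Y hp z x z x, ev_skew Y hs z x z x, ev_pair Y hp x z z x, ev_skew Y hs z x x z]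
  linear_combination (c ^ 2 + s ^ 2 + 1) * ev Y x z x z * hcs

lemma crit_zero (D B : ℝ) (h : ∀ c s : ℝ, c ^ 2 + s ^ 2 = 1 → 0 ≤ s ^ 2 * D + 2 * c * s * B) :
    B = 0 := by
  by_contra hB
  have hX : 0 < (|D| + 1) ^ 2 + B ^ 2 := by positivity
  set r := Real.sqrt ((|D| + 1) ^ 2 + B ^ 2) with hr
  have hr2 : r ^ 2 = (|D| + 1) ^ 2 + B ^ 2 := Real.sq_sqrt hX.le
  have hr0 : 0 < r := Real.sqrt_pos.mpr hX
  have h1 := h ((|D| + 1) / r) (-B / r) (by
    rw [div_pow, div_pow, ← add_div, neg_sq, ← hr2]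
    exact div_self (by positivity))
  have h2 : (-B / r) ^ 2 * D + 2 * ((|D| + 1) / r) * (-B / r) * B =
      B ^ 2 * (D - 2 * (|D| + 1)) / r ^ 2 := by
    field_simp
    ring
  rw [h2] at h1
  have h3 : B ^ 2 * (D - 2 * (|D| + 1)) < 0 := by
    have hB2 : 0 < B ^ 2 := by positivity
    have : D - 2 * (|D| + 1) < 0 := by
      have := le_abs_self D
      have := abs_nonneg D
      linarith
    exact mul_neg_of_pos_of_neg hB2 this
  have h4 : B ^ 2 * (D - 2 * (|D| + 1)) / r ^ 2 < 0 := div_neg_of_neg_of_pos h3 (by positivity)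
  linarith

/-- orthonormal frames, as rows -/
def Orth (O : Fin 6 → Fin 6 → ℝ) : Prop :=
  ∀ i j, ∑ a, O i a * O j a = if i = j then 1 else 0

/-- rotation of the rows `p`, `q` -/
def rot (p q : Fin 6) (c s : ℝ) (O : Fin 6 → Fin 6 → ℝ) : Fin 6 → Fin 6 → ℝ :=
  fun i => if i = p then c • O p + s • O q else if i = q then (-s) • O p + c • O q else O i

lemma dot_comb (c s c' s' : ℝ) (x z y w : Fin 6 → ℝ) :
    ∑ a, (c • x + s • z) a * (c' • y + s' • w) a =
      c * c' * ∑ a, x a * y a + c * s' * ∑ a, x a * w a + s * c' * ∑ a, z a * y a +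
        s * s' * ∑ a, z a * w a := by
  simp_rw [Finset.mul_sum, ← Finset.sum_add_distrib]
  refine Finset.sum_congr rfl fun a _ => ?_
  simp only [Pi.add_apply, Pi.smul_apply, smul_eq_mul]
  ring

lemma dot_comb1 (c s : ℝ) (x z y : Fin 6 → ℝ) :
    ∑ a, (c • x + s • z) a * y a = c * ∑ a, x a * y a + s * ∑ a, z a * y a := by
  simp_rw [Finset.mul_sum, ← Finset.sum_add_distrib]
  refine Finset.sum_congr rfl fun a _ => ?_
  simp only [Pi.add_apply, Pi.smul_apply, smul_eq_mul]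
  ring

lemma dot_comb2 (c s : ℝ) (x z y : Fin 6 → ℝ) :
    ∑ a, y a * (c • x + s • z) a = c * ∑ a, y a * x a + s * ∑ a, y a * z a := by
  simp_rw [Finset.mul_sum, ← Finset.sum_add_distrib]
  refine Finset.sum_congr rfl fun a _ => ?_
  simp only [Pi.add_apply, Pi.smul_apply, smul_eq_mul]
  ring

lemma rot_orth {O : Fin 6 → Fin 6 → ℝ} (hO : Orth O) {p q : Fin 6} (hpq : p ≠ q) {c s : ℝ}
    (hcs : c ^ 2 + s ^ 2 = 1) : Orth (rot p q c s O) := by
  have hqp : q ≠ p := hpq.symm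
  intro i j
  unfold rot
  by_cases hip : i = p
  · subst hip
    by_cases hjp : j = i
    · subst hjp
      simp only [if_true]
      rw [dot_comb, hO, hO, hO, hO]
      simp [hpq, hqp]
      linarith
    · by_cases hjq : j = q
      · subst hjq
        simp only [if_true, if_neg hjp]
        rw [dot_comb, hO, hO, hO, hO]
        simp [hpq, hqp]
        ring
      · simp only [if_true, if_neg hjp, if_neg hjq]
        rw [dot_comb1, hO, hO]
        simp [Ne.symm hjp, Ne.symm hjq]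
  · by_cases hiq : i = q
    · subst hiq
      by_cases hjp : j = p
      · subst hjp
        simp only [if_true, if_neg hip]
        rw [dot_comb, hO, hO, hO, hO]
        simp [hpq, hqp]
        ring
      · by_cases hjq : j = i
        · subst hjq
          simp only [if_true, if_neg hip]
          rw [dot_comb, hO, hO, hO, hO]
          simp [hpq, hqp]
          linarith
        · simp only [if_true, if_neg hip, if_neg hjp, if_neg hjq]
          rw [dot_comb1, hO, hO]
          simp [Ne.symm hjp, Ne.symm hjq]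
    · by_cases hjp : j = p
      · subst hjp
        simp only [if_true, if_neg hip, if_neg hiq]
        rw [dot_comb2, hO, hO]
        simp [hip, hiq]
      · by_cases hjq : j = q
        · subst hjq
          simp only [if_true, if_neg hip, if_neg hiq, if_neg hjp]
          rw [dot_comb2, hO, hO]
          simp [hip, hiq]
        · simp only [if_neg hip, if_neg hiq, if_neg hjp, if_neg hjq]
          exact hO i j

/-- frames with prescribed first two rows -/
def Fr (O₀ : Fin 6 → Fin 6 → ℝ) : Set (Fin 6 → Fin 6 → ℝ) :=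
  {O | Orth O ∧ O 0 = O₀ 0 ∧ O 1 = O₀ 1}

lemma isClosed_orth : IsClosed {O : Fin 6 → Fin 6 → ℝ | Orth O} := by
  unfold Orth
  simp only [Set.ofPred_forall]
  refine isClosed_iInter fun i => isClosed_iInter fun j => ?_
  exact isClosed_eq (by fun_prop) continuous_const

lemma isCompact_Fr (O₀ : Fin 6 → Fin 6 → ℝ) : IsCompact (Fr O₀) := by
  have hcl : IsClosed (Fr O₀) := by
    have : Fr O₀ = {O : Fin 6 → Fin 6 → ℝ | Orth O} ∩ {O | O 0 = O₀ 0} ∩ {O | O 1 = O₀ 1} := by
      ext O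
      simp [Fr, and_assoc]
    rw [this]
    refine (isClosed_orth.inter ?_).inter ?_
    · exact isClosed_eq (by fun_prop) continuous_const
    · exact isClosed_eq (by fun_prop) continuous_const
  refine IsCompact.of_isClosed_subset (isCompact_univ_pi fun _ => isCompact_univ_pi fun _ =>
    isCompact_Icc (a := (-1:ℝ)) (b := 1)) hcl ?_
  intro O hO i _ a _
  have h1 := hO.1 i i
  simp only [if_true] at h1
  have h2 : O i a * O i a ≤ 1 := by
    rw [← h1]
    exact Finset.single_le_sum (f := fun a => O i a * O i a)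
      (fun b _ => mul_self_nonneg _) (Finset.mem_univ a)
  constructor <;> nlinarith

lemma continuous_sec (Y : T4) (p q : Fin 6) :
    Continuous fun O : Fin 6 → Fin 6 → ℝ => sec Y (O p) (O q) := by
  unfold sec
  fun_prop

/-- determinant of an orthonormal frame -/
lemma det_orth {O : Fin 6 → Fin 6 → ℝ} (hO : Orth O) : (Matrix.of O).det ^ 2 = 1 := by
  have h : Matrix.of O * (Matrix.of O).transpose = 1 := by
    ext i j
    simp only [Matrix.mul_apply, Matrix.transpose_apply, Matrix.of_apply, Matrix.one_apply]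
    exact hO i j
  have h2 := congrArg Matrix.det h
  rw [Matrix.det_mul, Matrix.det_transpose, Matrix.det_one] at h2
  rw [pow_two]
  exact h2

lemma ev_prod (x y x' y' : Fin 6 → ℝ) (u v w z : Fin 6 → ℝ) :
    ev (fun i j k l => x i * (y j * (x' k * y' l))) u v w z =
      (∑ a, x a * u a) * ((∑ a, y a * v a) * ((∑ a, x' a * w a) * (∑ a, y' a * z a))) := by
  unfold ev
  have h : ∀ (A B C D : Fin 6 → ℝ), (∑ a, A a) * ((∑ b, B b) * ((∑ c, C c) * (∑ d, D d))) =
      ∑ a, ∑ b, ∑ c, ∑ d, A a * (B b * (C c * D d)) := by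
    intro A B C D
    rw [Finset.sum_mul]
    refine Finset.sum_congr rfl fun a _ => ?_
    rw [Finset.sum_mul, Finset.mul_sum]
    refine Finset.sum_congr rfl fun b _ => ?_
    rw [Finset.sum_mul, Finset.mul_sum, Finset.mul_sum]
    refine Finset.sum_congr rfl fun c _ => ?_
    rw [Finset.mul_sum, Finset.mul_sum, Finset.mul_sum]
  rw [h]
  refine sum_congr4 fun i j k l => ?_
  ring

/-- The sectional form of `Gt Y` on the first two vectors of an orthonormal frame. -/
lemma sec_Gt_frame (Y : T4) {O : Fin 6 → Fin 6 → ℝ} (hO : Orth O) :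
    sec (Gt Y) (O 0) (O 1) =
      gb4 (fun i j k l => fr O Y i.succ.succ j.succ.succ k.succ.succ l.succ.succ) := by
  rw [sec_Gt, ← gb_el]
  have h := gb_fr O (fun i j k l => O 0 i * (O 1 j * (O 0 k * O 1 l))) Y Y
  rw [det_orth hO, one_mul] at h
  rw [← h]
  congr 1
  funext i j k l
  unfold fr
  rw [ev_prod, hO, hO, hO, hO]
  unfold el
  by_cases h0 : i = 0 <;> by_cases h1 : j = 1 <;> by_cases h2 : k = 0 <;>
    by_cases h3 : l = 1 <;> simp [h0, h1, h2, h3, eq_comm]

lemma fr_skew (Y : T4) (hs : ∀ i j k l, Y i j k l = - Y j i k l) (O : Fin 6 → Fin 6 → ℝ)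
    (i j k l : Fin 6) : fr O Y i j k l = - fr O Y j i k l := ev_skew Y hs _ _ _ _

lemma fr_pair (Y : T4) (hp : ∀ i j k l, Y i j k l = Y k l i j) (O : Fin 6 → Fin 6 → ℝ)
    (i j k l : Fin 6) : fr O Y i j k l = fr O Y k l i j := ev_pair Y hp _ _ _ _

lemma rot_fst (p q : Fin 6) (c s : ℝ) (O : Fin 6 → Fin 6 → ℝ) :
    rot p q c s O p = c • O p + s • O q := by simp [rot]

lemma rot_snd {p q : Fin 6} (h : p ≠ q) (c s : ℝ) (O : Fin 6 → Fin 6 → ℝ) :
    rot p q c s O q = (-s) • O p + c • O q := by simp [rot, h.symm]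

lemma rot_other {p q i : Fin 6} (hp : i ≠ p) (hq : i ≠ q) (c s : ℝ) (O : Fin 6 → Fin 6 → ℝ) :
    rot p q c s O i = O i := by simp [rot, hp, hq]

lemma rot_mem {O₀ O : Fin 6 → Fin 6 → ℝ} (hO : O ∈ Fr O₀) {p q : Fin 6} (hpq : p ≠ q)
    (h0p : (0 : Fin 6) ≠ p) (h0q : (0 : Fin 6) ≠ q) (h1p : (1 : Fin 6) ≠ p)
    (h1q : (1 : Fin 6) ≠ q) {c s : ℝ} (hcs : c ^ 2 + s ^ 2 = 1) : rot p q c s O ∈ Fr O₀ := by
  refine ⟨rot_orth hO.1 hpq hcs, ?_, ?_⟩
  · rw [rot_other h0p h0q, hO.2.1]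
  · rw [rot_other h1p h1q, hO.2.2]

/-- Existence of an adapted frame. -/
lemma exists_adapted (Y : T4) (hs : ∀ i j k l, Y i j k l = - Y j i k l)
    (hp : ∀ i j k l, Y i j k l = Y k l i j) {O₀ : Fin 6 → Fin 6 → ℝ} (hO₀ : Orth O₀) :
    ∃ O ∈ Fr O₀, ev Y (O 2) (O 3) (O 4) (O 3) = 0 ∧ ev Y (O 2) (O 3) (O 5) (O 3) = 0 ∧
      ev Y (O 2) (O 3) (O 2) (O 4) = 0 ∧ ev Y (O 2) (O 3) (O 2) (O 5) = 0 ∧
      ev Y (O 2) (O 4) (O 3) (O 4) = 0 ∧ ev Y (O 2) (O 4) (O 2) (O 5) = 0 := by
  have hne : (Fr O₀).Nonempty := ⟨O₀, hO₀, rfl, rfl⟩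
  obtain ⟨O₁, hO₁, hmin1⟩ := (isCompact_Fr O₀).exists_isMinOn hne (continuous_sec Y 2 3).continuousOn
  have hmin1' : ∀ O ∈ Fr O₀, sec Y (O₁ 2) (O₁ 3) ≤ sec Y (O 2) (O 3) := fun O hO => hmin1 hO
  have hcpt : IsCompact (Fr O₀ ∩ {O | sec Y (O 2) (O 3) = sec Y (O₁ 2) (O₁ 3)}) :=
    (isCompact_Fr O₀).inter_right (isClosed_eq (continuous_sec Y 2 3) continuous_const)
  obtain ⟨O, hO, hmin2⟩ := hcpt.exists_isMinOn ⟨O₁, hO₁, rfl⟩ (continuous_sec Y 2 4).continuousOn
  have hmin2' : ∀ O' ∈ Fr O₀, sec Y (O' 2) (O' 3) = sec Y (O₁ 2) (O₁ 3) →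
    sec Y (O 2) (O 4) ≤ sec Y (O' 2) (O' 4) := fun O' hO' h => hmin2 ⟨hO', h⟩
  obtain ⟨hOF, hOe⟩ := hO
  have hOe' : sec Y (O 2) (O 3) = sec Y (O₁ 2) (O₁ 3) := hOe
  refine ⟨O, hOF, ?_, ?_, ?_, ?_, ?_, ?_⟩
  · refine crit_zero (sec Y (O 4) (O 3) - sec Y (O 2) (O 3)) _ fun c s hcs => ?_
    have h := hmin1' _ (rot_mem hOF (p := 2) (q := 4) (by decide) (by decide) (by decide)
      (by decide) (by decide) hcs)
    rw [rot_fst, rot_other (by decide) (by decide), sec_comb1 Y hp, ← hOe'] at h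
    rw [show c ^ 2 = 1 - s ^ 2 by linarith] at h
    linarith
  · refine crit_zero (sec Y (O 5) (O 3) - sec Y (O 2) (O 3)) _ fun c s hcs => ?_
    have h := hmin1' _ (rot_mem hOF (p := 2) (q := 5) (by decide) (by decide) (by decide)
      (by decide) (by decide) hcs)
    rw [rot_fst, rot_other (by decide) (by decide), sec_comb1 Y hp, ← hOe'] at h
    rw [show c ^ 2 = 1 - s ^ 2 by linarith] at h
    linarith
  · refine crit_zero (sec Y (O 2) (O 4) - sec Y (O 2) (O 3)) _ fun c s hcs => ?_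
    have h := hmin1' _ (rot_mem hOF (p := 3) (q := 4) (by decide) (by decide) (by decide)
      (by decide) (by decide) hcs)
    rw [rot_fst, rot_other (by decide) (by decide), sec_comb2 Y hp, ← hOe'] at h
    rw [show c ^ 2 = 1 - s ^ 2 by linarith] at h
    linarith
  · refine crit_zero (sec Y (O 2) (O 5) - sec Y (O 2) (O 3)) _ fun c s hcs => ?_
    have h := hmin1' _ (rot_mem hOF (p := 3) (q := 5) (by decide) (by decide) (by decide)
      (by decide) (by decide) hcs)
    rw [rot_fst, rot_other (by decide) (by decide), sec_comb2 Y hp, ← hOe'] at h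
    rw [show c ^ 2 = 1 - s ^ 2 by linarith] at h
    linarith
  · refine crit_zero (sec Y (O 3) (O 4) - sec Y (O 2) (O 4)) _ fun c s hcs => ?_
    have h := hmin2' _ (rot_mem hOF (p := 2) (q := 3) (by decide) (by decide) (by decide)
      (by decide) (by decide) hcs) (by
        rw [rot_fst, rot_snd (by decide), sec_rot Y hs hp c s hcs, hOe'])
    rw [rot_fst, rot_other (by decide) (by decide), sec_comb1 Y hp] at h
    rw [show c ^ 2 = 1 - s ^ 2 by linarith] at h
    linarith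
  · refine crit_zero (sec Y (O 2) (O 5) - sec Y (O 2) (O 4)) _ fun c s hcs => ?_
    have h := hmin2' _ (rot_mem hOF (p := 4) (q := 5) (by decide) (by decide) (by decide)
      (by decide) (by decide) hcs) (by
        rw [rot_other (by decide) (by decide), rot_other (by decide) (by decide), hOe'])
    rw [rot_fst, rot_other (by decide) (by decide), sec_comb2 Y hp] at h
    rw [show c ^ 2 = 1 - s ^ 2 by linarith] at h
    linarith

/-- Milnor's lemma for the first two vectors of an orthonormal frame. -/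
lemma milnor_frame (Y : T4) (hs : ∀ i j k l, Y i j k l = - Y j i k l)
    (hp : ∀ i j k l, Y i j k l = Y k l i j) (hY : ∀ x y, 0 ≤ sec Y x y)
    {O₀ : Fin 6 → Fin 6 → ℝ} (hO₀ : Orth O₀) : 0 ≤ sec (Gt Y) (O₀ 0) (O₀ 1) := by
  obtain ⟨O, hO, e1, e2, e3, e4, e5, e6⟩ := exists_adapted Y hs hp hO₀
  rw [← hO.2.1, ← hO.2.2, sec_Gt_frame Y hO.1]
  refine gb4_nonneg _ (fun i j k l => fr_skew Y hs O _ _ _ _)
    (fun i j k l => fr_pair Y hp O _ _ _ _) ?_ ?_ ?_ ?_ ?_ ?_ ?_ ?_ ?_ ?_ ?_ ?_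
  · show ev Y (O 2) (O 3) (O 3) (O 4) = 0
    rw [ev_pair Y hp, ev_skew Y hs, ev_pair Y hp, e1, neg_zero]
  · show ev Y (O 2) (O 3) (O 3) (O 5) = 0
    rw [ev_pair Y hp, ev_skew Y hs, ev_pair Y hp, e2, neg_zero]
  · exact e3
  · exact e4
  · exact e5
  · exact e6
  · exact hY _ _
  · exact hY _ _
  · exact hY _ _
  · exact hY _ _
  · exact hY _ _
  · exact hY _ _

end H80Hopf
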