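import Pool.Agent.Lib.H80Hopf.Milnor

/-!
# Milnor's lemma for arbitrary pairs of vectors
-/

open Finset Equiv

namespace H80Hopf

/-- any two vectors are triangular with respect to some orthonormal frame -/
lemma exists_frame (x y : Fin 6 → ℝ) : ∃ O : Fin 6 → Fin 6 → ℝ, Orth O ∧
    ∃ α β γ : ℝ, x = α • O 0 ∧ y = β • O 0 + γ • O 1 := by
  let E := EuclideanSpace ℝ (Fin 6)
  let f : Fin 6 → E := ![WithLp.toLp 2 x, WithLp.toLp 2 y, 0, 0, 0, 0]
  let b : OrthonormalBasis (Fin 6) ℝ E :=
    InnerProductSpace.gramSchmidtOrthonormalBasis (𝕜 := ℝ) (by simp [E]) f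
  have htri : ∀ i j : Fin 6, i < j → inner ℝ (b j) (f i) = 0 := fun i j hij =>
    InnerProductSpace.gramSchmidtOrthonormalBasis_inv_triangular _ f hij
  refine ⟨fun i a => (b i).ofLp a, ?_, inner ℝ (b 0) (f 0), inner ℝ (b 0) (f 1),
    inner ℝ (b 1) (f 1), ?_, ?_⟩
  · intro i j
    have h := orthonormal_iff_ite.mp b.orthonormal j i
    rw [PiLp.inner_apply] at h
    simp only [RCLike.inner_apply, conj_trivial] at h
    rw [h]
    simp [eq_comm]
  · have h := b.sum_repr' (f 0)
    rw [Fin.sum_univ_six, htri 0 1 (by decide), htri 0 2 (by decide), htri 0 3 (by decide),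
      htri 0 4 (by decide), htri 0 5 (by decide)] at h
    simp only [zero_smul, add_zero] at h
    funext a
    have := congrArg (fun v : E => v.ofLp a) h
    exact this.symm
  · have h := b.sum_repr' (f 1)
    rw [Fin.sum_univ_six, htri 1 2 (by decide), htri 1 3 (by decide),
      htri 1 4 (by decide), htri 1 5 (by decide)] at h
    simp only [zero_smul, add_zero] at h
    funext a
    have := congrArg (fun v : E => v.ofLp a) h
    exact this.symm

lemma sec_tri (X : T4) (hs : ∀ i j k l, X i j k l = - X j i k l)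
    (hp : ∀ i j k l, X i j k l = X k l i j) (α β γ : ℝ) (u v : Fin 6 → ℝ) :
    sec X (α • u) (β • u + γ • v) = α ^ 2 * γ ^ 2 * sec X u v := by
  have h : α • u = α • u + (0:ℝ) • v := by simp
  rw [sec_comb2 X hp, h]
  simp only [sec_comb1 X hp, ev_comb1, ev_comb3]
  simp only [sec_eq_ev, ev_same X hs, ev_same' X hs hp]
  ring

/-- **Milnor's lemma.** If `Y` has nonnegative sectional curvatures then so does `*(Y ∧ Y)*`. -/
lemma milnor (Y : T4) (hs : ∀ i j k l, Y i j k l = - Y j i k l)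
    (hp : ∀ i j k l, Y i j k l = Y k l i j) (hY : ∀ x y, 0 ≤ sec Y x y) (x y : Fin 6 → ℝ) :
    0 ≤ sec (Gt Y) x y := by
  obtain ⟨O, hO, α, β, γ, hx, hy⟩ := exists_frame x y
  rw [hx, hy, sec_tri (Gt Y) (Gt_skew Y) (Gt_pair Y hp)]
  exact mul_nonneg (by positivity) (milnor_frame Y hs hp hY hO)

end H80Hopf
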