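import Mathlib

/-!
# Positivity tools for the pinching theorem

* `trace_nonneg`: the trace pairing of two positive semidefinite matrices is nonnegative;
* `quartic_avg`: a quartic form which is nonnegative everywhere has nonnegative full contraction.
-/

open Finset

namespace H80Hopf

variable {ι : Type*} [Fintype ι]

lemma posSemidef_of (B : ι → ι → ℝ) (hBs : ∀ i j, B i j = B j i)
    (hB : ∀ x : ι → ℝ, 0 ≤ ∑ i, ∑ j, B i j * x i * x j) : (Matrix.of B).PosSemidef := by
  refine Matrix.PosSemidef.of_dotProduct_mulVec_nonneg ?_ ?_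
  · ext i j
    simp [Matrix.conjTranspose_apply, hBs i j]
  · intro x
    have := hB x
    simp only [dotProduct, Matrix.mulVec, Matrix.of_apply, Pi.star_apply, star_trivial,
      Finset.mul_sum]
    refine this.trans_eq (Finset.sum_congr rfl fun i _ => Finset.sum_congr rfl fun j _ => ?_)
    ring

/-- pairing of two positive semidefinite symmetric matrices, given by their quadratic forms -/
lemma trace_nonneg (A B : ι → ι → ℝ) (hAs : ∀ i j, A i j = A j i)
    (hBs : ∀ i j, B i j = B j i)
    (hA : ∀ x : ι → ℝ, 0 ≤ ∑ i, ∑ j, A i j * x i * x j)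
    (hB : ∀ x : ι → ℝ, 0 ≤ ∑ i, ∑ j, B i j * x i * x j) :
    0 ≤ ∑ i, ∑ j, A i j * B i j := by
  classical
  have h := (posSemidef_of A hAs hA).hadamard (posSemidef_of B hBs hB)
  have h2 := h.dotProduct_mulVec_nonneg (fun _ => (1 : ℝ))
  simpa [dotProduct, Matrix.mulVec, Matrix.hadamard_apply] using h2

/-- the sign attached to a boolean -/
def sg (b : Bool) : ℝ := if b then 1 else -1

lemma sg_mul_self (b : Bool) : sg b * sg b = 1 := by cases b <;> simp [sg]

lemma sg_not (b : Bool) : sg (!b) = - sg b := by cases b <;> simp [sg]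

/-- flipping the value at `a` -/
def flip [DecidableEq ι] (a : ι) : (ι → Bool) ≃ (ι → Bool) where
  toFun e := Function.update e a (!e a)
  invFun e := Function.update e a (!e a)
  left_inv e := by
    funext i
    by_cases h : i = a
    · subst h; simp
    · simp [h]
  right_inv e := by
    funext i
    by_cases h : i = a
    · subst h; simp
    · simp [h]

lemma sum_odd [DecidableEq ι] (a : ι) (F : (ι → Bool) → ℝ) (hF : ∀ e, F (flip a e) = F e) :
    ∑ e : ι → Bool, sg (e a) * F e = 0 := by
  have h1 : ∑ e : ι → Bool, sg (e a) * F e = ∑ e : ι → Bool, sg ((flip a e) a) * F (flip a e) :=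
    ((flip a).sum_comp (fun e => sg (e a) * F e)).symm
  have h2 : ∑ e : ι → Bool, sg ((flip a e) a) * F (flip a e) =
      - ∑ e : ι → Bool, sg (e a) * F e := by
    rw [← Finset.sum_neg_distrib]
    refine Finset.sum_congr rfl fun e _ => ?_
    rw [hF e]
    have : (flip a e) a = !(e a) := by simp [flip]
    rw [this, sg_not]
    ring
  linarith

lemma flip_ne [DecidableEq ι] {a b : ι} (h : b ≠ a) (e : ι → Bool) : (flip a e) b = e b := by
  simp [flip, h]

lemma sum_two [DecidableEq ι] (c d : ι) :
    ∑ e : ι → Bool, sg (e c) * sg (e d) =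
      (Fintype.card (ι → Bool) : ℝ) * (if c = d then 1 else 0) := by
  by_cases h : c = d
  · subst h
    simp [sg_mul_self, Finset.card_univ]
  · rw [sum_odd c (fun e => sg (e d)) (fun e => by rw [flip_ne (Ne.symm h)])]
    simp [h]

lemma sum_four [DecidableEq ι] (a b c d : ι) :
    ∑ e : ι → Bool, sg (e a) * (sg (e b) * (sg (e c) * sg (e d))) =
      (Fintype.card (ι → Bool) : ℝ) * ((if a = b then 1 else 0) * (if c = d then 1 else 0) +
        (if a = c then 1 else 0) * (if b = d then 1 else 0) +
        (if a = d then 1 else 0) * (if b = c then 1 else 0) -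
        2 * ((if a = b then 1 else 0) * (if a = c then 1 else 0) * (if a = d then 1 else 0))) := by
  by_cases hab : a = b
  · subst hab
    have : ∀ e : ι → Bool, sg (e a) * (sg (e a) * (sg (e c) * sg (e d))) = sg (e c) * sg (e d) := by
      intro e
      rw [← mul_assoc, sg_mul_self, one_mul]
    simp_rw [this]
    rw [sum_two]
    by_cases hac : a = c
    · subst hac
      by_cases had : a = d <;> simp [had] <;> ring
    · by_cases had : a = d
      · subst had
        simp [hac]
      · simp [hac, had]
  · by_cases hac : a = c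
    · subst hac
      have : ∀ e : ι → Bool, sg (e a) * (sg (e b) * (sg (e a) * sg (e d))) =
          sg (e b) * sg (e d) := by
        intro e
        have := sg_mul_self (e a)
        linear_combination (sg (e b) * sg (e d)) * this
      simp_rw [this]
      rw [sum_two]
      have hba : ¬ b = a := fun h => hab h.symm
      simp [hab, hba]
    · by_cases had : a = d
      · subst had
        have : ∀ e : ι → Bool, sg (e a) * (sg (e b) * (sg (e c) * sg (e a))) =
            sg (e b) * sg (e c) := by
          intro e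
          have := sg_mul_self (e a)
          linear_combination (sg (e b) * sg (e c)) * this
        simp_rw [this]
        rw [sum_two]
        simp [hab, hac]
      · rw [sum_odd a (fun e => sg (e b) * (sg (e c) * sg (e d))) (fun e => by
          rw [flip_ne (Ne.symm hab), flip_ne (Ne.symm hac), flip_ne (Ne.symm had)])]
        simp [hab, hac, had]

/-- A quartic form which is nonnegative everywhere has nonnegative full contraction. -/
lemma quartic_avg [DecidableEq ι] (t : ι → ι → ι → ι → ℝ)
    (h : ∀ x : ι → ℝ, 0 ≤ ∑ a, ∑ b, ∑ c, ∑ d, t a b c d * (x a * (x b * (x c * x d)))) :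
    0 ≤ ∑ a, ∑ c, (t a a c c + t a c a c + t a c c a) := by
  have h1 : 0 ≤ ∑ e : ι → Bool, ∑ a, ∑ b, ∑ c, ∑ d,
      t a b c d * (sg (e a) * (sg (e b) * (sg (e c) * sg (e d)))) :=
    Finset.sum_nonneg fun e _ => h (fun i => sg (e i))
  have h2 : ∑ e : ι → Bool, ∑ a, ∑ b, ∑ c, ∑ d,
      t a b c d * (sg (e a) * (sg (e b) * (sg (e c) * sg (e d)))) =
      ∑ a, ∑ b, ∑ c, ∑ d, t a b c d *
        ∑ e : ι → Bool, (sg (e a) * (sg (e b) * (sg (e c) * sg (e d)))) := by
    simp_rw [Finset.mul_sum]
    rw [Finset.sum_comm]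
    refine Finset.sum_congr rfl fun a _ => ?_
    rw [Finset.sum_comm]
    refine Finset.sum_congr rfl fun b _ => ?_
    rw [Finset.sum_comm]
    refine Finset.sum_congr rfl fun c _ => ?_
    rw [Finset.sum_comm]
  have h3 : ∀ a, 0 ≤ t a a a a := by
    intro a
    have := h (fun i => if i = a then 1 else 0)
    simpa [Finset.sum_ite_eq', mul_ite] using this
  have h4 : ∑ a, ∑ b, ∑ c, ∑ d, t a b c d *
        ∑ e : ι → Bool, (sg (e a) * (sg (e b) * (sg (e c) * sg (e d)))) =
      (Fintype.card (ι → Bool) : ℝ) * (∑ a, ∑ c, (t a a c c + t a c a c + t a c c a) -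
        2 * ∑ a, t a a a a) := by
    simp_rw [sum_four]
    have e1 : ∑ a, ∑ b, ∑ c, ∑ d, t a b c d *
        ((if a = b then (1:ℝ) else 0) * (if c = d then 1 else 0)) = ∑ a, ∑ c, t a a c c := by
      simp [mul_ite, Finset.sum_ite_eq]
    have e2 : ∑ a, ∑ b, ∑ c, ∑ d, t a b c d *
        ((if a = c then (1:ℝ) else 0) * (if b = d then 1 else 0)) = ∑ a, ∑ c, t a c a c := by
      simp [mul_ite, Finset.sum_ite_eq]
    have e3 : ∑ a, ∑ b, ∑ c, ∑ d, t a b c d *
        ((if a = d then (1:ℝ) else 0) * (if b = c then 1 else 0)) = ∑ a, ∑ c, t a c c a := by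
      simp [mul_ite, Finset.sum_ite_eq]
    have e4 : ∑ a, ∑ b, ∑ c, ∑ d, t a b c d *
        ((if a = b then (1:ℝ) else 0) * (if a = c then 1 else 0) * (if a = d then 1 else 0)) =
        ∑ a, t a a a a := by
      simp [mul_ite, Finset.sum_ite_eq]
    rw [← e4]
    simp_rw [Finset.sum_add_distrib]
    rw [← e1, ← e2, ← e3]
    simp_rw [← Finset.sum_add_distrib, Finset.mul_sum, ← Finset.sum_sub_distrib, Finset.mul_sum]
    refine Finset.sum_congr rfl fun a _ => Finset.sum_congr rfl fun b _ =>
      Finset.sum_congr rfl fun c _ => Finset.sum_congr rfl fun d _ => ?_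
    ring
  rw [h2, h4] at h1
  have hc : (0:ℝ) < (Fintype.card (ι → Bool) : ℝ) := by
    exact_mod_cast Fintype.card_pos
  have h5 : 0 ≤ ∑ a, ∑ c, (t a a c c + t a c a c + t a c c a) - 2 * ∑ a, t a a a a :=
    nonneg_of_mul_nonneg_right h1 hc
  have h6 : 0 ≤ ∑ a, t a a a a := Finset.sum_nonneg fun a _ => h3 a
  linarith

end H80Hopf
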