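import Pool.Agent.Lib.H80Hopf.RicBound

/-!
# Reduction of the pinching theorem to a scalar inequality
-/

open Finset Equiv

namespace H80Hopf

/-- algebraic curvature tensors -/
abbrev AC (R : T4) : Prop := HopfSix.IsAlgCurv R

lemma AC.sym {R : T4} (h : AC R) : Sym R := ⟨h.skew, h.pair⟩

lemma gb_exp2 (U S : T4) (p t : ℝ) : gb U (p • I4 + t • S) (p • I4 + t • S) =
    p ^ 2 * gb U I4 I4 + 2 * p * t * gb U I4 S + t ^ 2 * gb U S S := by
  simp only [gb_add2, gb_add3, gb_smul2, gb_smul3]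
  rw [gb_comm23 U S I4]
  ring

lemma gb_exp3 (S : T4) (p q t : ℝ) : gb (p • I4 + S) (q • I4 + t • S) (q • I4 + t • S) =
    p * q ^ 2 * gb I4 I4 I4 + (q ^ 2 + 2 * p * q * t) * gb I4 I4 S +
      (p * t ^ 2 + 2 * q * t) * gb I4 S S + t ^ 2 * gb S S S := by
  rw [gb_add1, gb_smul1, gb_exp2, gb_exp2, gb_comm13 S I4 I4, gb_comm12 S I4 S]
  ring

/-- The scalar data attached to a pinched curvature tensor. -/
lemma reduce (R : T4) (hR : AC R) (m M : ℝ)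
    (hm : ∀ x y : Fin 6 → ℝ, m * sec I4 x y ≤ sec R x y)
    (hM : ∀ x y : Fin 6 → ℝ, sec R x y ≤ M * sec I4 x y) :
    ∃ p q s e f z : ℝ, 0 ≤ p ∧ 0 ≤ q ∧ 0 ≤ s ∧ p + q = M - m ∧
      0 ≤ 90 * p ^ 2 + e ∧ 0 ≤ 90 * q ^ 2 + e ∧ 0 ≤ e + 9 * s ^ 2 ∧
      e + 14 * s ^ 2 ≤ 40 * p * q ∧
      z ≤ s * (90 * p ^ 2 + e) ∧ z + 18 * (p + q) * s ^ 2 ≤ s * (90 * q ^ 2 + e) ∧
      0 ≤ f + 240 * p ^ 3 + 14 / 3 * p * e + 2 / 3 * z ∧
      0 ≤ f + 240 * p * q ^ 2 - (2 * q - 8 / 3 * p) * e + 2 / 3 * (z + 18 * (p + q) * s ^ 2) ∧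
      gb R R R = 64 * (90 * (m + p) ^ 3 + 3 * (m + p) * e + f) := by
  obtain ⟨c, hc⟩ : ∃ c, c = scal R / 30 := ⟨_, rfl⟩
  obtain ⟨S, hS⟩ : ∃ S : T4, S = R + (-c) • I4 := ⟨_, rfl⟩
  obtain ⟨r, hr⟩ : ∃ r, r = ric S := ⟨_, rfl⟩
  have hSs : Sym S := by rw [hS]; exact (AC.sym hR).add (sym_I4.smul _)
  have hscS : scal S = 0 := by
    rw [hS, scal_add, scal_smul, scal_I4, hc]
    ring
  have htr : tr2 r = 0 := by rw [hr, tr2_ric, hscS]
  obtain ⟨p, hp⟩ : ∃ p, p = c - m := ⟨_, rfl⟩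
  obtain ⟨q, hq⟩ : ∃ q, q = M - c := ⟨_, rfl⟩
  obtain ⟨P, hP⟩ : ∃ P : T4, P = p • I4 + S := ⟨_, rfl⟩
  obtain ⟨Q, hQ⟩ : ∃ Q : T4, Q = q • I4 + (-1 : ℝ) • S := ⟨_, rfl⟩
  have hRS : R = c • I4 + S := by
    rw [hS]
    module
  have hPR : P = R + (-m) • I4 := by
    rw [hP, hS, hp]
    module
  have hQR : Q = M • I4 + (-1 : ℝ) • R := by
    rw [hQ, hS, hq]
    module
  have hPs : Sym P := by rw [hP]; exact (sym_I4.smul _).add hSs
  have hQs : Sym Q := by rw [hQ]; exact (sym_I4.smul _).add (hSs.smul _)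
  have hPb : ∀ i j k l, P i j k l + P j k i l + P k i j l = 0 := by
    intro i j k l
    rw [hPR]
    simp only [Pi.add_apply, Pi.smul_apply, smul_eq_mul]
    have h1 := hR.bianchi i j k l
    have h2 := bianchi_I4 i j k l
    linear_combination h1 - m * h2
  have hQb : ∀ i j k l, Q i j k l + Q j k i l + Q k i j l = 0 := by
    intro i j k l
    rw [hQR]
    simp only [Pi.add_apply, Pi.smul_apply, smul_eq_mul]
    have h1 := hR.bianchi i j k l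
    have h2 := bianchi_I4 i j k l
    linear_combination M * h2 - h1
  have hPsec : ∀ x y, 0 ≤ sec P x y := by
    intro x y
    rw [hPR, sec_add, sec_smul]
    have := hm x y
    linarith
  have hQsec : ∀ x y, 0 ≤ sec Q x y := by
    intro x y
    rw [hQR, sec_add, sec_smul, sec_smul]
    have := hM x y
    linarith
  obtain ⟨A, hA⟩ : ∃ A, A = ip4 S S := ⟨_, rfl⟩
  obtain ⟨B, hB⟩ : ∃ B, B = ip2 r r := ⟨_, rfl⟩
  have hB0 : 0 ≤ B := by
    rw [hB]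
    unfold ip2
    exact Finset.sum_nonneg fun i _ => Finset.sum_nonneg fun j _ => mul_self_nonneg _
  obtain ⟨s, hs⟩ : ∃ s, s = Real.sqrt (B / 12) := ⟨_, rfl⟩
  have hs0 : 0 ≤ s := hs ▸ Real.sqrt_nonneg _
  have hBs : B = 12 * s ^ 2 := by
    rw [hs, Real.sq_sqrt (by positivity)]
    ring
  obtain ⟨U, hU⟩ : ∃ U : T4, U = kn r := ⟨_, rfl⟩
  have hrs : ∀ i j, r i j = r j i := by rw [hr]; exact ric_symm S hSs.pair
  have hUs : Sym U := by rw [hU]; exact sym_kn hrs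
  -- values of the Gauss-Bonnet form
  obtain ⟨F, hF⟩ : ∃ F, F = gb S S S := ⟨_, rfl⟩
  have hIIS : gb I4 I4 S = 0 := by rw [gb_IIX hSs, hscS]; ring
  have hISS : gb I4 S S = 16 * (A - 4 * B) := by
    rw [gb_I4' hSs hSs, hscS, ← hr, ← hA, ← hB]
    ring
  have hscU : scal U = 0 := by rw [hU, scal_kn, htr]; ring
  have hricU : ric U = (4:ℝ) • r := by rw [hU, ric_kn, htr]; simp
  have hUII : gb U I4 I4 = 0 := by
    rw [gb_comm13, gb_IIX hUs, hscU]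
    ring
  have hSU : ip4 S U = 4 * B := by rw [hU, ip4_kn hSs, ← hr, ← hB]
  have hUIS : gb U I4 S = -192 * B := by
    rw [gb_comm12, gb_I4' hUs hSs, hscU, hricU, ip2_smul, ip4_comm, hSU, ← hr, ← hB]
    ring
  obtain ⟨χ, hχ⟩ : ∃ χ, χ = gb U S S := ⟨_, rfl⟩
  have hgP : scal (Gt P) = 2880 * p ^ 2 + 8 * (A - 4 * B) := by
    have h1 : gb I4 P P = 2 * scal (Gt P) := by rw [gb_eq_ip4, ip4_I4 (sym_Gt hPs)]
    have h2 := gb_exp2 I4 S p 1
    rw [one_smul, ← hP] at h2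
    rw [gb_III, hIIS, hISS] at h2
    linarith
  have hgQ : scal (Gt Q) = 2880 * q ^ 2 + 8 * (A - 4 * B) := by
    have h1 : gb I4 Q Q = 2 * scal (Gt Q) := by rw [gb_eq_ip4, ip4_I4 (sym_Gt hQs)]
    have h2 := gb_exp2 I4 S q (-1)
    rw [← hQ] at h2
    rw [gb_III, hIIS, hISS] at h2
    linarith
  obtain ⟨ζP, hζP⟩ : ∃ z, z = ip2 (ric (Gt P)) r := ⟨_, rfl⟩
  obtain ⟨ζQ, hζQ⟩ : ∃ z, z = ip2 (ric (Gt Q)) r := ⟨_, rfl⟩
  have hzP : 4 * ζP = - 384 * p * B + χ := by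
    have h1 : gb U P P = 4 * ζP := by rw [gb_eq_ip4, hU, ip4_kn (sym_Gt hPs), hζP]
    have h2 := gb_exp2 U S p 1
    rw [one_smul, ← hP, hUII, hUIS, ← hχ] at h2
    linarith
  have hzQ : 4 * ζQ = 384 * q * B + χ := by
    have h1 : gb U Q Q = 4 * ζQ := by rw [gb_eq_ip4, hU, ip4_kn (sym_Gt hQs), hζQ]
    have h2 := gb_exp2 U S q (-1)
    rw [← hQ, hUII, hUIS, ← hχ] at h2
    linarith
  have hricP : ric P = (5 * p) • de + r := by
    rw [hP, ric_add, ric_smul, ric_I4, smul_smul, mul_comm p 5, hr]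
  have hricQ : ric Q = (5 * q) • de + (-1:ℝ) • r := by
    rw [hQ, ric_add, ric_smul, ric_smul, ric_I4, smul_smul, mul_comm q 5, hr]
  have hPPP : gb P P P = 5760 * p ^ 3 + 48 * p * (A - 4 * B) + F := by
    have h2 := gb_exp3 S p p 1
    rw [one_smul, ← hP, gb_III, hIIS, hISS, ← hF] at h2
    linarith
  have hRRR : gb R R R = 5760 * c ^ 3 + 48 * c * (A - 4 * B) + F := by
    have h2 := gb_exp3 S c c 1
    rw [one_smul, ← hRS, gb_III, hIIS, hISS, ← hF] at h2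
    linarith
  have hPQQ : gb P Q Q = 5760 * p * q ^ 2 + (p - 2 * q) * (16 * (A - 4 * B)) + F := by
    have h2 := gb_exp3 S p q (-1)
    rw [← hP, ← hQ, gb_III, hIIS, hISS, ← hF] at h2
    linarith
  -- the inequalities
  have I1 : 0 ≤ ip2 (ric (Gt P)) (ric P) + 3 / 2 * ip4 (Gt P) P :=
    jacobi_trace (Gt P) P (sym_Gt hPs).skew (sym_Gt hPs).pair hPs.skew hPs.pair hPb
      (milnor P hPs.skew hPs.pair hPsec) hPsec
  have I2 : 0 ≤ ip2 (ric (Gt Q)) (ric P) + 3 / 2 * ip4 (Gt Q) P :=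
    jacobi_trace (Gt Q) P (sym_Gt hQs).skew (sym_Gt hQs).pair hPs.skew hPs.pair hPb
      (milnor Q hQs.skew hQs.pair hQsec) hPsec
  have I3 : 0 ≤ ip2 (ric P) (ric Q) + 3 / 2 * ip4 P Q :=
    jacobi_trace P Q hPs.skew hPs.pair hQs.skew hQs.pair hQb hPsec hQsec
  have e1 : ip2 (ric (Gt P)) (ric P) = 5 * p * scal (Gt P) + ζP := by
    rw [hricP, ip2_add', ip2_smul', ip2_de, tr2_ric, hζP]
  have e2 : ip2 (ric (Gt Q)) (ric P) = 5 * p * scal (Gt Q) + ζQ := by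
    rw [hricP, ip2_add', ip2_smul', ip2_de, tr2_ric, hζQ]
  have e3 : ip2 (ric P) (ric Q) = 150 * p * q - B := by
    have hde : ip2 de de = 6 := by rw [ip2_de, tr2_de]
    have hdr : ip2 de r = 0 := by rw [ip2_comm, ip2_de, htr]
    have hrd : ip2 r de = 0 := by rw [ip2_de, htr]
    rw [hricP, hricQ]
    simp only [ip2_add, ip2_add', ip2_smul, ip2_smul']
    rw [hde, hdr, hrd, ← hB]
    ring
  have e4 : ip4 P Q = 60 * p * q - A := by
    have hII : ip4 I4 I4 = 60 := by rw [ip4_I4 sym_I4, scal_I4]; norm_num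
    have hSI : ip4 S I4 = 0 := by rw [ip4_I4 hSs, hscS]; ring
    have hIS : ip4 I4 S = 0 := by rw [ip4_comm, hSI]
    rw [hP, hQ]
    simp only [ip4_add, ip4_add', ip4_smul, ip4_smul']
    rw [hII, hSI, hIS, ← hA]
    ring
  have e5 : ip4 (Gt P) P = gb P P P := (gb_eq_ip4 P P).symm
  have e6 : ip4 (Gt Q) P = gb P Q Q := (gb_eq_ip4 P Q).symm
  have I4' : 0 ≤ A - B := by
    have h1 : 0 ≤ ip4 (S + (-(1/4 : ℝ)) • U) (S + (-(1/4 : ℝ)) • U) := by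
      unfold ip4
      exact Finset.sum_nonneg fun i _ => Finset.sum_nonneg fun j _ =>
        Finset.sum_nonneg fun k _ => Finset.sum_nonneg fun l _ => mul_self_nonneg _
    have hUU : ip4 U U = 16 * B := by
      have h5 := ip4_kn hUs r
      rw [← hU, hricU, ip2_smul, ← hB] at h5
      linarith
    simp only [ip4_add, ip4_add', ip4_smul, ip4_smul'] at h1
    rw [ip4_comm U S, hSU, hUU, ← hA] at h1
    linarith
  have gP0 : 0 ≤ scal (Gt P) := scal_nonneg (sym_Gt hPs) (milnor P hPs.skew hPs.pair hPsec)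
  have gQ0 : 0 ≤ scal (Gt Q) := scal_nonneg (sym_Gt hQs) (milnor Q hQs.skew hQs.pair hQsec)
  have zP1 : ζP ≤ 2 * s * scal (Gt P) := by
    rw [hζP]
    exact ric_pair_le (sym_Gt hPs) (milnor P hPs.skew hPs.pair hPsec) htr hs0 (hB ▸ hBs)
  have zQ1 : ζQ ≤ 2 * s * scal (Gt Q) := by
    rw [hζQ]
    exact ric_pair_le (sym_Gt hQs) (milnor Q hQs.skew hQs.pair hQsec) htr hs0 (hB ▸ hBs)
  have hp0 : 0 ≤ p := by
    have h1 := scal_nonneg hPs hPsec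
    rw [hP, scal_add, scal_smul, scal_I4, hscS] at h1
    linarith
  have hq0 : 0 ≤ q := by
    have h1 := scal_nonneg hQs hQsec
    rw [hQ, scal_add, scal_smul, scal_smul, scal_I4, hscS] at h1
    linarith
  refine ⟨p, q, s, (A - 4 * B) / 4, F / 64, ζP / 64, hp0, hq0, hs0, by rw [hp, hq]; ring,
    ?_, ?_, ?_, ?_, ?_, ?_, ?_, ?_, ?_⟩
  · rw [hgP] at gP0; linarith
  · rw [hgQ] at gQ0; linarith
  · rw [hBs] at I4' ⊢; linarith
  · rw [e3, e4, hBs] at I3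
    rw [hBs]
    linarith
  · rw [hgP] at zP1
    linarith
  · rw [hgQ] at zQ1
    rw [hBs] at hzP hzQ zQ1 ⊢
    linarith [zQ1, hzP, hzQ]
  · rw [e1, e5, hPPP, hgP] at I1
    linarith
  · rw [e2, e6, hPQQ, hgQ] at I2
    rw [hBs] at hzP hzQ I2 ⊢
    linarith [I2, hzP, hzQ]
  · rw [hRRR, hp]
    ring

end H80Hopf
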