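import Pool.Agent.Lib.H80Hopf.Ident

/-!
# Ricci estimates for tensors with nonnegative sectional curvatures
-/

open Finset Equiv

namespace H80Hopf

/-- quadratic form of a `2`-tensor -/
def qf (r : Fin 6 → Fin 6 → ℝ) (x : Fin 6 → ℝ) : ℝ := ∑ i, ∑ j, r i j * x i * x j

lemma sumX_d2 (X : T4) (r : Fin 6 → Fin 6 → ℝ) :
    ∑ i, ∑ j, ∑ k, ∑ l, X i j k l * (r i k * de j l) = ip2 (ric X) r := by
  unfold ip2 ric de
  have h : ∀ i j k : Fin 6, ∑ l, X i j k l * (r i k * (if j = l then 1 else 0)) =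
      X i j k j * r i k := by
    intro i j k
    simp
  simp_rw [h, Finset.sum_mul]
  refine Finset.sum_congr rfl fun i _ => ?_
  rw [Finset.sum_comm]

lemma sumX_d1 {X : T4} (hX : Sym X) (r : Fin 6 → Fin 6 → ℝ) :
    ∑ i, ∑ j, ∑ k, ∑ l, X i j k l * (de i k * r j l) = ip2 (ric X) r := by
  rw [← sumX_d2, sw01, sw23]
  refine sum_congr4 fun i j k l => ?_
  rw [hX.skew j i l k, hX.skew2 i j l k]
  ring

lemma sum_sec {κ κ' : Type*} [Fintype κ] [Fintype κ'] (X : T4) (u : κ → Fin 6 → ℝ)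
    (v : κ' → Fin 6 → ℝ) :
    ∑ i, ∑ j, sec X (u i) (v j) = ∑ a, ∑ b, ∑ c, ∑ d, X a b c d *
      ((∑ i, u i a * u i c) * (∑ j, v j b * v j d)) := by
  have e2 : ∀ (F : κ → κ' → Fin 6 → Fin 6 → Fin 6 → Fin 6 → ℝ),
      ∑ k, ∑ l, ∑ a, ∑ b, ∑ c, ∑ d, F k l a b c d =
      ∑ a, ∑ b, ∑ c, ∑ d, ∑ k, ∑ l, F k l a b c d := by
    intro F
    have h1 : ∀ (G : κ' → Fin 6 → Fin 6 → Fin 6 → Fin 6 → ℝ),
        ∑ l, ∑ a, ∑ b, ∑ c, ∑ d, G l a b c d = ∑ a, ∑ b, ∑ c, ∑ d, ∑ l, G l a b c d := by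
      intro G
      rw [Finset.sum_comm]
      refine Finset.sum_congr rfl fun a _ => ?_
      rw [Finset.sum_comm]
      refine Finset.sum_congr rfl fun b _ => ?_
      rw [Finset.sum_comm]
      refine Finset.sum_congr rfl fun c _ => ?_
      rw [Finset.sum_comm]
    have h2 : ∀ (G : κ → Fin 6 → Fin 6 → Fin 6 → Fin 6 → ℝ),
        ∑ l, ∑ a, ∑ b, ∑ c, ∑ d, G l a b c d = ∑ a, ∑ b, ∑ c, ∑ d, ∑ l, G l a b c d := by
      intro G
      rw [Finset.sum_comm]
      refine Finset.sum_congr rfl fun a _ => ?_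
      rw [Finset.sum_comm]
      refine Finset.sum_congr rfl fun b _ => ?_
      rw [Finset.sum_comm]
      refine Finset.sum_congr rfl fun c _ => ?_
      rw [Finset.sum_comm]
    rw [Finset.sum_congr rfl fun k _ => h1 (F k)]
    exact h2 (fun k a b c d => ∑ l, F k l a b c d)
  unfold sec
  rw [e2]
  refine sum_congr4 fun a b c d => ?_
  rw [Finset.sum_mul_sum, Finset.mul_sum]
  refine Finset.sum_congr rfl fun i _ => ?_
  rw [Finset.mul_sum]
  refine Finset.sum_congr rfl fun j _ => ?_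
  ring

lemma sum_de (b d : Fin 6) : ∑ j, de j b * de j d = de b d := by
  simp [de, eq_comm]

lemma ric_psd {X : T4} (hsec : ∀ x y, 0 ≤ sec X x y) (x : Fin 6 → ℝ) :
    0 ≤ qf (ric X) x := by
  have h := sum_sec X (fun _ : Unit => x) de
  simp only [Finset.univ_unique, Finset.sum_singleton, sum_de] at h
  rw [sumX_d2 X (fun a c => x a * x c)] at h
  have h2 : ip2 (ric X) (fun a c => x a * x c) = qf (ric X) x := by
    unfold ip2 qf
    refine Finset.sum_congr rfl fun i _ => Finset.sum_congr rfl fun j _ => ?_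
    ring
  rw [← h2, ← h]
  exact Finset.sum_nonneg fun j _ => hsec _ _

lemma sec_self {X : T4} (hX : Sym X) (x : Fin 6 → ℝ) : sec X x x = 0 := by
  rw [sec_eq_ev]
  exact ev_same X hX.skew x x x

/-- the Ricci form is at most half of the scalar contraction -/
lemma ric_le {X : T4} (hX : Sym X) (hsec : ∀ x y, 0 ≤ sec X x y) (x : Fin 6 → ℝ) :
    0 ≤ scal X * (∑ i, x i ^ 2) - 2 * qf (ric X) x := by
  set N := ∑ i, x i ^ 2 with hN
  have hN0 : 0 ≤ N := Finset.sum_nonneg fun i _ => sq_nonneg _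
  rcases hN0.eq_or_lt with h0 | hpos
  · have hx : ∀ i, x i = 0 := by
      intro i
      have := (Finset.sum_eq_zero_iff_of_nonneg (fun i _ => sq_nonneg (x i))).mp
        (hN.symm.trans h0.symm) i (Finset.mem_univ i)
      exact pow_eq_zero_iff (two_ne_zero) |>.mp this
    have : qf (ric X) x = 0 := by
      unfold qf
      simp [hx]
    rw [this, ← h0]
    simp
  · have h := sum_sec X (fun i a => N * de i a - x i * x a) (fun i a => N * de i a - x i * x a)
    have hw : ∀ a c : Fin 6, ∑ i, (N * de i a - x i * x a) * (N * de i c - x i * x c) =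
        N * (N * de a c - x a * x c) := by
      intro a c
      have e1 : ∑ i, (N * de i a - x i * x a) * (N * de i c - x i * x c) =
          N ^ 2 * ∑ i, de i a * de i c - N * x c * ∑ i, de i a * x i
            - N * x a * ∑ i, de i c * x i + x a * x c * ∑ i, x i ^ 2 := by
        simp_rw [Finset.mul_sum, ← Finset.sum_sub_distrib, ← Finset.sum_add_distrib]
        refine Finset.sum_congr rfl fun i _ => ?_
        ring
      have e2 : ∀ a : Fin 6, ∑ i, de i a * x i = x a := by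
        intro a
        simp [de]
      rw [e1, sum_de, e2, e2, ← hN]
      ring
    simp only [hw] at h
    have h3 : ∑ a, ∑ b, ∑ c, ∑ d, X a b c d * (N * (N * de a c - x a * x c) *
        (N * (N * de b d - x b * x d))) =
        N ^ 2 * (N * (N * scal X) - 2 * N * qf (ric X) x) := by
      have t1 : ∑ i, ∑ j, ∑ k, ∑ l, X i j k l * (de i k * de j l) = scal X := by
        rw [sumX_d1 hX de, ip2_de, tr2_ric]
      have t2 := sumX_d1 hX (fun a c => x a * x c)
      have t3 := sumX_d2 X (fun a c => x a * x c)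
      have t4 : ip2 (ric X) (fun a c => x a * x c) = qf (ric X) x := by
        unfold ip2 qf
        refine Finset.sum_congr rfl fun i _ => Finset.sum_congr rfl fun j _ => ?_
        ring
      have t5 : ∑ i, ∑ j, ∑ k, ∑ l, X i j k l * (x i * (x j * (x k * x l))) = 0 :=
        sec_self hX x
      have e : ∑ a, ∑ b, ∑ c, ∑ d, X a b c d * (N * (N * de a c - x a * x c) *
        (N * (N * de b d - x b * x d))) =
          N ^ 4 * (∑ i, ∑ j, ∑ k, ∑ l, X i j k l * (de i k * de j l)) -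
          N ^ 3 * (∑ i, ∑ j, ∑ k, ∑ l, X i j k l * (de i k * (x j * x l))) -
          N ^ 3 * (∑ i, ∑ j, ∑ k, ∑ l, X i j k l * ((x i * x k) * de j l)) +
          N ^ 2 * (∑ i, ∑ j, ∑ k, ∑ l, X i j k l * (x i * (x j * (x k * x l)))) := by
        simp_rw [Finset.mul_sum, ← Finset.sum_sub_distrib, ← Finset.sum_add_distrib]
        refine sum_congr4 fun a b c d => ?_
        ring
      rw [e, t1, t2, t3, t4, t5]
      ring
    rw [h3] at h
    have h4 : 0 ≤ N ^ 2 * (N * (N * scal X) - 2 * N * qf (ric X) x) := by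
      rw [← h]
      exact Finset.sum_nonneg fun i _ => Finset.sum_nonneg fun j _ => hsec _ _
    have h5 : N ^ 2 * (N * (N * scal X) - 2 * N * qf (ric X) x) =
        N ^ 3 * (scal X * N - 2 * qf (ric X) x) := by ring
    rw [h5] at h4
    exact nonneg_of_mul_nonneg_right h4 (by positivity)

lemma scal_nonneg {X : T4} (hX : Sym X) (hsec : ∀ x y, 0 ≤ sec X x y) : 0 ≤ scal X := by
  have h := sum_sec X de de
  simp only [sum_de] at h
  rw [sumX_d1 hX de, ip2_de, tr2_ric] at h
  rw [← h]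
  exact Finset.sum_nonneg fun i _ => Finset.sum_nonneg fun j _ => hsec _ _

lemma ric_sq_le {X : T4} (hX : Sym X) (hsec : ∀ x y, 0 ≤ sec X x y) :
    ip2 (ric X) (ric X) ≤ scal X ^ 2 / 2 := by
  have h := trace_nonneg (ric X) (fun i j => scal X / 2 * de i j - ric X i j)
    (ric_symm X hX.pair) (fun i j => by rw [de_comm, ric_symm X hX.pair]) (ric_psd hsec) (by
      intro x
      have h1 := ric_le hX hsec x
      have h2 : ∑ i, ∑ j, (scal X / 2 * de i j - ric X i j) * x i * x j =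
          scal X / 2 * (∑ i, x i ^ 2) - qf (ric X) x := by
        have e1 : ∑ i, ∑ j, de i j * (x i * x j) = ∑ i, x i ^ 2 := by
          refine Finset.sum_congr rfl fun i _ => ?_
          simp [de]
          ring
        rw [← e1]
        unfold qf
        simp_rw [Finset.mul_sum, ← Finset.sum_sub_distrib]
        refine Finset.sum_congr rfl fun i _ => Finset.sum_congr rfl fun j _ => ?_
        ring
      rw [h2]
      linarith)
  have h3 : ∑ i, ∑ j, ric X i j * (scal X / 2 * de i j - ric X i j) =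
      scal X / 2 * ip2 (ric X) de - ip2 (ric X) (ric X) := by
    unfold ip2
    simp_rw [Finset.mul_sum, ← Finset.sum_sub_distrib]
    refine Finset.sum_congr rfl fun i _ => Finset.sum_congr rfl fun j _ => ?_
    ring
  rw [h3, ip2_de, tr2_ric] at h
  linarith

lemma ip2_sq_le (A B : Fin 6 → Fin 6 → ℝ) : ip2 A B ^ 2 ≤ ip2 A A * ip2 B B := by
  have h := Finset.sum_mul_sq_le_sq_mul_sq (Finset.univ : Finset (Fin 6 × Fin 6))
    (fun p => A p.1 p.2) (fun p => B p.1 p.2)
  simp only [Fintype.sum_prod_type] at h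
  have e : ∀ A : Fin 6 → Fin 6 → ℝ, ip2 A A = ∑ i, ∑ j, A i j ^ 2 := by
    intro A
    unfold ip2
    refine Finset.sum_congr rfl fun i _ => Finset.sum_congr rfl fun j _ => ?_
    ring
  rw [e A, e B]
  exact h

/-- pairing of the Ricci form with a traceless symmetric tensor -/
lemma ric_pair_le {X : T4} (hX : Sym X) (hsec : ∀ x y, 0 ≤ sec X x y)
    {r : Fin 6 → Fin 6 → ℝ} (htr : tr2 r = 0) {s : ℝ} (hs : 0 ≤ s) (hr : ip2 r r = 12 * s ^ 2) :
    ip2 (ric X) r ≤ 2 * s * scal X := by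
  have hg := scal_nonneg hX hsec
  have h1 := ric_sq_le hX hsec
  set Y := ric X + (-(scal X / 6)) • de with hY
  have hde : ip2 de de = 6 := by rw [ip2_de, tr2_de]
  have hYY : ip2 Y Y ≤ scal X ^ 2 / 3 := by
    have : ip2 Y Y = ip2 (ric X) (ric X) - scal X ^ 2 / 6 := by
      rw [hY, ip2_add, ip2_add', ip2_add', ip2_smul, ip2_smul, ip2_smul', ip2_smul', hde,
        ip2_comm de, ip2_de, tr2_ric]
      ring
    rw [this]
    linarith
  have hYr : ip2 Y r = ip2 (ric X) r := by
    rw [hY, ip2_add, ip2_smul, ip2_comm de, ip2_de, htr]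
    ring
  have h2 := ip2_sq_le Y r
  rw [hYr, hr] at h2
  have h3 : ip2 (ric X) r ^ 2 ≤ (2 * s * scal X) ^ 2 := by
    have : ip2 Y Y * (12 * s ^ 2) ≤ scal X ^ 2 / 3 * (12 * s ^ 2) :=
      mul_le_mul_of_nonneg_right hYY (by positivity)
    calc ip2 (ric X) r ^ 2 ≤ ip2 Y Y * (12 * s ^ 2) := h2
      _ ≤ scal X ^ 2 / 3 * (12 * s ^ 2) := this
      _ = (2 * s * scal X) ^ 2 := by ring
  exact (abs_le_of_sq_le_sq h3 (by positivity)) |> le_of_abs_le

end H80Hopf
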