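import Pool.Agent.Lib.H80Hopf.Psd

/-!
# The Jacobi operator trace inequality

For two curvature-like tensors with nonnegative sectional curvatures, the average over the unit
sphere of the trace of the product of the two Jacobi operators is nonnegative.
-/

open Finset

namespace H80Hopf

variable {ι : Type*} [Fintype ι]

/-- the sectional form `X(x, y, x, y)` -/
def sec (X : ι → ι → ι → ι → ℝ) (x y : ι → ℝ) : ℝ :=
  ∑ i, ∑ j, ∑ k, ∑ l, X i j k l * (x i * (y j * (x k * y l)))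

/-- Ricci contraction -/
def ric (X : ι → ι → ι → ι → ℝ) (i k : ι) : ℝ := ∑ j, X i j k j

/-- scalar contraction -/
def scal (X : ι → ι → ι → ι → ℝ) : ℝ := ∑ i, ric X i i

/-- full pairing of `4`-tensors -/
def ip4 (X Y : ι → ι → ι → ι → ℝ) : ℝ := ∑ i, ∑ j, ∑ k, ∑ l, X i j k l * Y i j k l

/-- pairing of `2`-tensors -/
def ip2 (A B : ι → ι → ℝ) : ℝ := ∑ i, ∑ j, A i j * B i j

lemma sw01 (F : ι → ι → ι → ι → ℝ) :
    ∑ a, ∑ b, ∑ c, ∑ d, F a b c d = ∑ b, ∑ a, ∑ c, ∑ d, F a b c d := Finset.sum_comm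

lemma sw12 (F : ι → ι → ι → ι → ℝ) :
    ∑ a, ∑ b, ∑ c, ∑ d, F a b c d = ∑ a, ∑ c, ∑ b, ∑ d, F a b c d :=
  Finset.sum_congr rfl fun _ _ => Finset.sum_comm

lemma sw23 (F : ι → ι → ι → ι → ℝ) :
    ∑ a, ∑ b, ∑ c, ∑ d, F a b c d = ∑ a, ∑ b, ∑ d, ∑ c, F a b c d :=
  Finset.sum_congr rfl fun _ _ => Finset.sum_congr rfl fun _ _ => Finset.sum_comm

lemma sum_congr4 {F G : ι → ι → ι → ι → ℝ} (h : ∀ a b c d, F a b c d = G a b c d) :
    ∑ a, ∑ b, ∑ c, ∑ d, F a b c d = ∑ a, ∑ b, ∑ c, ∑ d, G a b c d :=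
  Finset.sum_congr rfl fun a _ => Finset.sum_congr rfl fun b _ =>
    Finset.sum_congr rfl fun c _ => Finset.sum_congr rfl fun d _ => h a b c d

lemma sum_mul4 (F : ι → ι → ℝ) (G : ι → ι → ℝ) :
    (∑ a, ∑ b, F a b) * (∑ c, ∑ d, G c d) = ∑ a, ∑ b, ∑ c, ∑ d, F a b * G c d := by
  simp_rw [Finset.sum_mul, Finset.mul_sum]

lemma cross_eq (X Y : ι → ι → ι → ι → ℝ) (hXs : ∀ i j k l, X i j k l = - X j i k l)
    (hYs : ∀ i j k l, Y i j k l = - Y j i k l)
    (hYb : ∀ i j k l, Y i j k l + Y j k i l + Y k i j l = 0) :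
    ∑ a, ∑ k, ∑ c, ∑ l, X a k c l * Y c k a l = 1 / 2 * ip4 X Y := by
  have h1 : ∑ a, ∑ k, ∑ c, ∑ l, X a k c l * Y a c k l =
      ∑ a, ∑ k, ∑ c, ∑ l, X a k c l * Y c k a l := by
    rw [sw01]
    refine sum_congr4 fun a k c l => ?_
    rw [hXs k a c l, hYs k c a l]
    ring
  have h2 : ∑ a, ∑ k, ∑ c, ∑ l, X a k c l * Y c k a l =
      ip4 X Y - ∑ a, ∑ k, ∑ c, ∑ l, X a k c l * Y a c k l := by
    unfold ip4
    simp_rw [← Finset.sum_sub_distrib]
    refine sum_congr4 fun a k c l => ?_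
    have := hYb c k a l
    rw [hYs k a c l] at this
    linear_combination X a k c l * this
  linarith

lemma jacobi_psd (X : ι → ι → ι → ι → ℝ) (x : ι → ℝ) (hX : ∀ y, 0 ≤ sec X x y) (y : ι → ℝ) :
    0 ≤ ∑ k, ∑ l, (∑ a, ∑ b, X a k b l * (x a * x b)) * y k * y l := by
  refine (hX y).trans_eq ?_
  unfold sec
  rw [sw01, sw23, sw12]
  simp_rw [Finset.sum_mul]
  refine sum_congr4 fun a k c l => ?_
  ring

lemma jacobi_symm (X : ι → ι → ι → ι → ℝ) (hXp : ∀ i j k l, X i j k l = X k l i j)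
    (x : ι → ℝ) (k l : ι) :
    ∑ a, ∑ b, X a k b l * (x a * x b) = ∑ a, ∑ b, X a l b k * (x a * x b) := by
  rw [Finset.sum_comm]
  refine Finset.sum_congr rfl fun a _ => Finset.sum_congr rfl fun b _ => ?_
  rw [hXp b k a l]
  ring

/-- The Jacobi trace inequality. -/
lemma jacobi_trace [DecidableEq ι] (X Y : ι → ι → ι → ι → ℝ)
    (hXs : ∀ i j k l, X i j k l = - X j i k l) (hXp : ∀ i j k l, X i j k l = X k l i j)
    (hYs : ∀ i j k l, Y i j k l = - Y j i k l) (hYp : ∀ i j k l, Y i j k l = Y k l i j)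
    (hYb : ∀ i j k l, Y i j k l + Y j k i l + Y k i j l = 0)
    (hX : ∀ x y, 0 ≤ sec X x y) (hY : ∀ x y, 0 ≤ sec Y x y) :
    0 ≤ ip2 (ric X) (ric Y) + 3 / 2 * ip4 X Y := by
  have key := quartic_avg (fun a b c d => ∑ k, ∑ l, X a k b l * Y c k d l) (by
    intro x
    have h := trace_nonneg (fun k l => ∑ a, ∑ b, X a k b l * (x a * x b))
      (fun k l => ∑ c, ∑ d, Y c k d l * (x c * x d)) (jacobi_symm X hXp x) (jacobi_symm Y hYp x)
      (jacobi_psd X x (hX x)) (jacobi_psd Y x (hY x))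
    refine h.trans_eq ?_
    have e1 : ∀ k l, (∑ a, ∑ b, X a k b l * (x a * x b)) * (∑ c, ∑ d, Y c k d l * (x c * x d)) =
        ∑ a, ∑ b, ∑ c, ∑ d, X a k b l * Y c k d l * (x a * (x b * (x c * x d))) := by
      intro k l
      rw [sum_mul4]
      exact sum_congr4 fun a b c d => by ring
    simp_rw [e1]
    simp_rw [Finset.sum_mul]
    -- move k, l inside
    have e2 : ∀ (F : ι → ι → ι → ι → ι → ι → ℝ),
        ∑ k, ∑ l, ∑ a, ∑ b, ∑ c, ∑ d, F k l a b c d =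
        ∑ a, ∑ b, ∑ c, ∑ d, ∑ k, ∑ l, F k l a b c d := by
      intro F
      have : ∀ (G : ι → ι → ι → ι → ι → ℝ), ∑ l, ∑ a, ∑ b, ∑ c, ∑ d, G l a b c d =
          ∑ a, ∑ b, ∑ c, ∑ d, ∑ l, G l a b c d := by
        intro G
        rw [Finset.sum_comm]
        refine Finset.sum_congr rfl fun a _ => ?_
        rw [Finset.sum_comm]
        refine Finset.sum_congr rfl fun b _ => ?_
        rw [Finset.sum_comm]
        refine Finset.sum_congr rfl fun c _ => ?_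
        rw [Finset.sum_comm]
      rw [Finset.sum_congr rfl fun k _ => this (F k)]
      exact this (fun k a b c d => ∑ l, F k l a b c d)
    exact e2 _)
  have h1 : ∑ a, ∑ c, ∑ k, ∑ l, X a k a l * Y c k c l = ip2 (ric X) (ric Y) := by
    have hX' : ∀ k l, ric X k l = ∑ a, X a k a l := by
      intro k l
      refine Finset.sum_congr rfl fun a _ => ?_
      rw [hXs k a l a, hXp a k l a, hXs l a a k, hXp a l a k]
      ring
    have hY' : ∀ k l, ric Y k l = ∑ a, Y a k a l := by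
      intro k l
      refine Finset.sum_congr rfl fun a _ => ?_
      rw [hYs k a l a, hYp a k l a, hYs l a a k, hYp a l a k]
      ring
    unfold ip2
    simp_rw [hX', hY']
    rw [sw12, sw01, sw23, sw12]
    refine Finset.sum_congr rfl fun k _ => Finset.sum_congr rfl fun l _ => ?_
    rw [Finset.sum_mul_sum]
  have h2 : ∑ a, ∑ c, ∑ k, ∑ l, X a k c l * Y a k c l = ip4 X Y := by
    unfold ip4
    rw [sw12]
  have h3 : ∑ a, ∑ c, ∑ k, ∑ l, X a k c l * Y c k a l = 1 / 2 * ip4 X Y := by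
    rw [← cross_eq X Y hXs hYs hYb, sw12]
  simp_rw [Finset.sum_add_distrib] at key
  rw [h1, h2, h3] at key
  linarith

end H80Hopf
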