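import Pool.Agent.Lib.H80Hopf.Trace
import Pool.Agent.Lib.HopfSix.Defs

/-!
# The polarized Gauss–Bonnet form in dimension six
-/

open Finset Equiv

namespace H80Hopf

/-- four-tensors on `ℝ⁶` -/
abbrev T4 := Fin 6 → Fin 6 → Fin 6 → Fin 6 → ℝ

/-- real sign of a permutation -/
def sn {n : ℕ} (σ : Perm (Fin n)) : ℝ := ((Perm.sign σ : ℤ) : ℝ)

/-- polarized Gauss–Bonnet form -/
noncomputable def gb (X Y Z : T4) : ℝ :=
  ∑ σ : Perm (Fin 6), ∑ τ : Perm (Fin 6), sn σ * sn τ *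
    (X (σ 0) (σ 1) (τ 0) (τ 1) * Y (σ 2) (σ 3) (τ 2) (τ 3) * Z (σ 4) (σ 5) (τ 4) (τ 5))

lemma gaussBonnet_eq (R : T4) : HopfSix.gaussBonnet R = gb R R R := rfl

lemma sn_mul {n : ℕ} (σ τ : Perm (Fin n)) : sn (σ * τ) = sn σ * sn τ := by
  simp [sn, Perm.sign_mul]

lemma sn_mul_self {n : ℕ} (σ : Perm (Fin n)) : sn σ * sn σ = 1 := by
  unfold sn
  rcases Int.units_eq_one_or (Perm.sign σ) with h | h <;> simp [h]

lemma gb_comm12 (X Y Z : T4) : gb X Y Z = gb Y X Z := by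
  unfold gb
  have hs : sn (swap (0 : Fin 6) 2 * swap 1 3) = 1 := by
    have : Perm.sign (swap (0 : Fin 6) 2 * swap 1 3) = 1 := by decide
    simp [sn, this]
  have h0 : (swap (0 : Fin 6) 2 * swap 1 3 : Perm (Fin 6)) 0 = 2 := by decide
  have h1 : (swap (0 : Fin 6) 2 * swap 1 3 : Perm (Fin 6)) 1 = 3 := by decide
  have h2 : (swap (0 : Fin 6) 2 * swap 1 3 : Perm (Fin 6)) 2 = 0 := by decide
  have h3 : (swap (0 : Fin 6) 2 * swap 1 3 : Perm (Fin 6)) 3 = 1 := by decide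
  have h4 : (swap (0 : Fin 6) 2 * swap 1 3 : Perm (Fin 6)) 4 = 4 := by decide
  have h5 : (swap (0 : Fin 6) 2 * swap 1 3 : Perm (Fin 6)) 5 = 5 := by decide
  refine Fintype.sum_equiv (Equiv.mulRight (swap (0 : Fin 6) 2 * swap 1 3)) _ _ fun σ => ?_
  refine Fintype.sum_equiv (Equiv.mulRight (swap (0 : Fin 6) 2 * swap 1 3)) _ _ fun τ => ?_
  rw [Equiv.coe_mulRight]
  simp only [Perm.mul_apply σ, Perm.mul_apply τ, h0, h1, h2, h3, h4, h5, sn_mul, hs, mul_one]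
  ring

lemma gb_comm23 (X Y Z : T4) : gb X Y Z = gb X Z Y := by
  unfold gb
  have hs : sn (swap (2 : Fin 6) 4 * swap 3 5) = 1 := by
    have : Perm.sign (swap (2 : Fin 6) 4 * swap 3 5) = 1 := by decide
    simp [sn, this]
  have h0 : (swap (2 : Fin 6) 4 * swap 3 5 : Perm (Fin 6)) 0 = 0 := by decide
  have h1 : (swap (2 : Fin 6) 4 * swap 3 5 : Perm (Fin 6)) 1 = 1 := by decide
  have h2 : (swap (2 : Fin 6) 4 * swap 3 5 : Perm (Fin 6)) 2 = 4 := by decide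
  have h3 : (swap (2 : Fin 6) 4 * swap 3 5 : Perm (Fin 6)) 3 = 5 := by decide
  have h4 : (swap (2 : Fin 6) 4 * swap 3 5 : Perm (Fin 6)) 4 = 2 := by decide
  have h5 : (swap (2 : Fin 6) 4 * swap 3 5 : Perm (Fin 6)) 5 = 3 := by decide
  refine Fintype.sum_equiv (Equiv.mulRight (swap (2 : Fin 6) 4 * swap 3 5)) _ _ fun σ => ?_
  refine Fintype.sum_equiv (Equiv.mulRight (swap (2 : Fin 6) 4 * swap 3 5)) _ _ fun τ => ?_
  rw [Equiv.coe_mulRight]
  simp only [Perm.mul_apply σ, Perm.mul_apply τ, h0, h1, h2, h3, h4, h5, sn_mul, hs, mul_one]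
  ring

lemma gb_add1 (X X' Y Z : T4) : gb (X + X') Y Z = gb X Y Z + gb X' Y Z := by
  unfold gb
  simp_rw [← Finset.sum_add_distrib]
  refine Finset.sum_congr rfl fun σ _ => Finset.sum_congr rfl fun τ _ => ?_
  simp only [Pi.add_apply]
  ring

lemma gb_smul1 (c : ℝ) (X Y Z : T4) : gb (c • X) Y Z = c * gb X Y Z := by
  unfold gb
  simp_rw [Finset.mul_sum]
  refine Finset.sum_congr rfl fun σ _ => Finset.sum_congr rfl fun τ _ => ?_
  simp only [Pi.smul_apply, smul_eq_mul]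
  ring

lemma gb_add2 (X Y Y' Z : T4) : gb X (Y + Y') Z = gb X Y Z + gb X Y' Z := by
  rw [gb_comm12, gb_add1, gb_comm12 Y, gb_comm12 Y']

lemma gb_smul2 (c : ℝ) (X Y Z : T4) : gb X (c • Y) Z = c * gb X Y Z := by
  rw [gb_comm12, gb_smul1, gb_comm12]

lemma gb_add3 (X Y Z Z' : T4) : gb X Y (Z + Z') = gb X Y Z + gb X Y Z' := by
  rw [gb_comm23, gb_add2, gb_comm23 X Z, gb_comm23 X Z']

lemma gb_smul3 (c : ℝ) (X Y Z : T4) : gb X Y (c • Z) = c * gb X Y Z := by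
  rw [gb_comm23, gb_smul2, gb_comm23]

/-- swapping the first pair of the first argument changes the sign -/
lemma gb_swap1 (X Y Z : T4) :
    gb (fun i j k l => X j i k l) Y Z = - gb X Y Z := by
  unfold gb
  rw [← Finset.sum_neg_distrib]
  have hs : sn (swap (0 : Fin 6) 1) = -1 := by
    have : Perm.sign (swap (0 : Fin 6) 1) = -1 := by decide
    simp [sn, this]
  have h0 : (swap (0 : Fin 6) 1 : Perm (Fin 6)) 0 = 1 := by decide
  have h1 : (swap (0 : Fin 6) 1 : Perm (Fin 6)) 1 = 0 := by decide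
  have h2 : (swap (0 : Fin 6) 1 : Perm (Fin 6)) 2 = 2 := by decide
  have h3 : (swap (0 : Fin 6) 1 : Perm (Fin 6)) 3 = 3 := by decide
  have h4 : (swap (0 : Fin 6) 1 : Perm (Fin 6)) 4 = 4 := by decide
  have h5 : (swap (0 : Fin 6) 1 : Perm (Fin 6)) 5 = 5 := by decide
  refine Fintype.sum_equiv (Equiv.mulRight (swap (0 : Fin 6) 1)) _ _ fun σ => ?_
  rw [← Finset.sum_neg_distrib]
  refine Finset.sum_congr rfl fun τ _ => ?_
  rw [Equiv.coe_mulRight]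
  simp only [Perm.mul_apply σ, h0, h1, h2, h3, h4, h5, sn_mul, hs]
  ring

/-- exchanging the pairs of all arguments -/
lemma gb_pair (X Y Z : T4) (hY : ∀ i j k l, Y i j k l = Y k l i j)
    (hZ : ∀ i j k l, Z i j k l = Z k l i j) :
    gb (fun i j k l => X k l i j) Y Z = gb X Y Z := by
  unfold gb
  rw [Finset.sum_comm]
  refine Finset.sum_congr rfl fun σ _ => Finset.sum_congr rfl fun τ _ => ?_
  rw [hY (τ 2), hZ (τ 4)]
  ring

/-- elementary tensor -/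
def el (a b c d : Fin 6) : T4 := fun i j k l =>
  if i = a ∧ j = b ∧ k = c ∧ l = d then 1 else 0

/-- the tensor `*(Y ∧ Y)*` -/
noncomputable def Gt (Y : T4) : T4 := fun a b c d => gb (el a b c d) Y Y

lemma Gt_skew (Y : T4) (i j k l : Fin 6) :
    Gt Y i j k l = - Gt Y j i k l := by
  unfold Gt
  rw [← gb_swap1 (el j i k l) Y Y]
  congr 1
  funext a b c d
  unfold el
  congr 1
  simp only [eq_iff_iff]
  tauto

lemma Gt_pair (Y : T4) (hY : ∀ i j k l, Y i j k l = Y k l i j) (i j k l : Fin 6) :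
    Gt Y i j k l = Gt Y k l i j := by
  unfold Gt
  rw [← gb_pair (el k l i j) Y Y hY hY]
  congr 1
  funext a b c d
  unfold el
  congr 1
  simp only [eq_iff_iff]
  tauto

lemma gb_eq_ip4 (X Y : T4) : gb X Y Y = ip4 (Gt Y) X := by
  unfold ip4 Gt gb
  simp_rw [Finset.sum_mul]
  have e2 : ∀ (F : Fin 6 → Fin 6 → Fin 6 → Fin 6 → Perm (Fin 6) → Perm (Fin 6) → ℝ),
      ∑ a, ∑ b, ∑ c, ∑ d, ∑ σ, ∑ τ, F a b c d σ τ =
      ∑ σ, ∑ τ, ∑ a, ∑ b, ∑ c, ∑ d, F a b c d σ τ := by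
    intro F
    have h : ∀ (G : Fin 6 → Fin 6 → Fin 6 → Fin 6 → Perm (Fin 6) → ℝ),
        ∑ a, ∑ b, ∑ c, ∑ d, ∑ σ, G a b c d σ = ∑ σ, ∑ a, ∑ b, ∑ c, ∑ d, G a b c d σ := by
      intro G
      have h3 : ∀ a b c, ∑ d, ∑ σ, G a b c d σ = ∑ σ, ∑ d, G a b c d σ :=
        fun a b c => Finset.sum_comm
      simp_rw [h3]
      have h2 : ∀ a b, ∑ c, ∑ σ, ∑ d, G a b c d σ = ∑ σ, ∑ c, ∑ d, G a b c d σ :=
        fun a b => Finset.sum_comm
      simp_rw [h2]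
      have h1 : ∀ a, ∑ b, ∑ σ, ∑ c, ∑ d, G a b c d σ = ∑ σ, ∑ b, ∑ c, ∑ d, G a b c d σ :=
        fun a => Finset.sum_comm
      simp_rw [h1]
      exact Finset.sum_comm
    have h' : ∀ a b c d, ∑ σ, ∑ τ, F a b c d σ τ = ∑ σ, ∑ τ, F a b c d σ τ := fun _ _ _ _ => rfl
    rw [h (fun a b c d σ => ∑ τ, F a b c d σ τ)]
    refine Finset.sum_congr rfl fun σ _ => ?_
    exact h (fun a b c d τ => F a b c d σ τ)
  rw [e2]
  refine Finset.sum_congr rfl fun σ _ => Finset.sum_congr rfl fun τ _ => ?_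
  have : ∀ a b c d : Fin 6, sn σ * sn τ * (el a b c d (σ 0) (σ 1) (τ 0) (τ 1) *
      Y (σ 2) (σ 3) (τ 2) (τ 3) * Y (σ 4) (σ 5) (τ 4) (τ 5)) * X a b c d =
      (if σ 0 = a then (1:ℝ) else 0) * ((if σ 1 = b then 1 else 0) *
        ((if τ 0 = c then 1 else 0) * ((if τ 1 = d then 1 else 0) *
          (sn σ * sn τ * (X a b c d * Y (σ 2) (σ 3) (τ 2) (τ 3) *
            Y (σ 4) (σ 5) (τ 4) (τ 5)))))) := by
    intro a b c d
    unfold el
    by_cases h0 : σ 0 = a <;> by_cases h1 : σ 1 = b <;> by_cases h2 : τ 0 = c <;>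
      by_cases h3 : τ 1 = d <;> simp [h0, h1, h2, h3]
    ring
  simp_rw [this]
  simp [Finset.sum_ite_eq]

lemma sec_Gt (Y : T4) (x y : Fin 6 → ℝ) :
    sec (Gt Y) x y = gb (fun i j k l => x i * (y j * (x k * y l))) Y Y := by
  rw [gb_eq_ip4]
  rfl

end H80Hopf
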